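import Pool.Agent.Q192.SE.Core

/-!
# Atoms, atomless sets, and the compact operators in the support expansion algebra
-/

open MeasureTheory Set Filter Topology
open scoped InnerProductSpace NNReal ENNReal

namespace Pool.Agent.Q192.SE

variable {X : Type*} [MeasurableSpace X] {μ : Measure X} {A B : Set X} {φ : X → ℝ}

/-- atoms of finite measure -/
def Atom (μ : Measure X) (A : Set X) : Prop :=
  MeasurableSet A ∧ μ A ≠ 0 ∧ μ A ≠ ⊤ ∧ ∀ S ⊆ A, MeasurableSet S → μ S = 0 ∨ μ (A \ S) = 0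

/-- sets of finite positive measure without atoms -/
def Atomless (μ : Measure X) (B : Set X) : Prop :=
  MeasurableSet B ∧ μ B ≠ 0 ∧ μ B ≠ ⊤ ∧ ∀ A ⊆ B, ¬ Atom μ A

/-- the measurable subsets of `B` are countably generated modulo null sets -/
def CG (μ : Measure X) (B : Set X) : Prop :=
  ∃ e : X → ℝ, Measurable e ∧ ∀ S, MeasurableSet S →
    ∃ T, MeasurableSet T ∧ (e ⁻¹' T ∩ B : Set X) =ᵐ[μ] (S ∩ B : Set X)

theorem nice_of_atomless (hB : Atomless μ B) (hc : CG μ B) : ∃ φ : X → ℝ, Nice μ B φ := by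
  obtain ⟨e, he, hgen⟩ := hc
  refine exists_nice μ hB.1 hB.2.1 hB.2.2.1 e he hgen ?_
  intro t
  by_contra h
  apply hB.2.2.2 (e ⁻¹' {t} ∩ B) inter_subset_right
  refine ⟨(he (measurableSet_singleton t)).inter hB.1, h,
    measure_inter_ne_top_of_right_ne_top hB.2.2.1, ?_⟩
  intro S hS hSm
  obtain ⟨T, hT, hST⟩ := hgen S hSm
  have hSB : S ∩ B = S := inter_eq_left.2 (hS.trans inter_subset_right)
  rw [hSB] at hST
  by_cases ht : t ∈ T
  · right
    refine measure_mono_null ?_ (ae_eq_set.1 hST).1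
    rintro x ⟨⟨h1, h2⟩, h3⟩
    have h1' : e x = t := h1
    exact ⟨⟨by show e x ∈ T; rw [h1']; exact ht, h2⟩, h3⟩
  · left
    refine measure_mono_null ?_ (ae_eq_set.1 hST).2
    intro x hx
    refine ⟨hx, fun h4 => ht ?_⟩
    have h1' : e x = t := (hS hx).1
    rw [← h1']
    exact h4.1

theorem inner_ind (hA : MeasurableSet A) (hf : μ A ≠ ⊤) (ξ : Lp ℂ 2 μ) :
    ⟪ind μ hA hf, ξ⟫_ℂ = ∫ x in A, ξ x ∂μ := L2.inner_indicatorConstLp_one hA hf ξ

theorem support_ind (hA : MeasurableSet A) (hf : μ A ≠ ⊤) :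
    μ (Function.support (ind μ hA hf)) ≤ μ A := by
  refine measure_mono_ae ?_
  filter_upwards [indicatorConstLp_coeFn (p := 2) (hs := hA) (hμs := hf) (c := (1 : ℂ))] with x hx h
  have h1 : ind μ hA hf x ≠ 0 := h
  by_contra h2
  apply h1
  show indicatorConstLp 2 hA hf (1 : ℂ) x = 0
  rw [hx, indicator_of_notMem h2]

theorem ex_atom {A A' : Set X} (hA : MeasurableSet A) (hAf : μ A ≠ ⊤) (hA' : Atom μ A')
    (ξ : Lp ℂ 2 μ) :
    μ (Function.support (InnerProductSpace.rankOne ℂ (ind μ hA hAf)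
      (ind μ hA'.1 hA'.2.2.1) ξ)) ≤
      (((μ A).toNNReal / (μ A').toNNReal : ℝ≥0) : ℝ≥0∞) * μ (Function.support ξ) := by
  rw [InnerProductSpace.rankOne_apply]
  by_cases h : ⟪ind μ hA'.1 hA'.2.2.1, ξ⟫_ℂ = 0
  · rw [h, zero_smul, support_zero]
    exact zero_le
  have hm : MeasurableSet (Function.support ξ) :=
    measurableSet_support (Lp.stronglyMeasurable ξ).measurable
  have h1 : μ A' ≤ μ (Function.support ξ) := by
    rcases hA'.2.2.2 (A' ∩ Function.support ξ) inter_subset_left (hA'.1.inter hm) with h2 | h2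
    · exfalso
      apply h
      rw [inner_ind]
      refine setIntegral_eq_zero_of_ae_eq_zero ?_
      rw [ae_iff]
      refine measure_mono_null ?_ h2
      intro x hx
      simp only [mem_setOf_eq, Classical.not_imp] at hx
      exact ⟨hx.1, hx.2⟩
    · calc μ A' ≤ μ (A' \ (A' ∩ Function.support ξ)) + μ (Function.support ξ) := by
            refine le_trans (measure_mono ?_) (measure_union_le _ _)
            intro x hx
            by_cases h3 : x ∈ Function.support ξ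
            · right; exact h3
            · left; exact ⟨hx, fun h4 => h3 h4.2⟩
        _ = μ (Function.support ξ) := by rw [h2, zero_add]
  have h0 : (μ A').toNNReal ≠ 0 := by
    rw [Ne, ENNReal.toNNReal_eq_zero_iff]
    have := hA'.2.1
    have := hA'.2.2.1
    tauto
  calc μ (Function.support (⟪ind μ hA'.1 hA'.2.2.1, ξ⟫_ℂ • ind μ hA hAf : Lp ℂ 2 μ))
      ≤ μ A := (support_smul_le _ _).trans (support_ind hA hAf)
    _ = (((μ A).toNNReal / (μ A').toNNReal : ℝ≥0) : ℝ≥0∞) * μ A' := by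
        rw [ENNReal.coe_div h0, ENNReal.coe_toNNReal hAf, ENNReal.coe_toNNReal hA'.2.2.1,
          ENNReal.div_mul_cancel hA'.2.1 hA'.2.2.1]
    _ ≤ _ := by gcongr

theorem rank_atom {A A' : Set X} (hA : Atom μ A) (hA' : Atom μ A') :
    InnerProductSpace.rankOne ℂ (ind μ hA.1 hA.2.2.1) (ind μ hA'.1 hA'.2.2.1) ∈ Cu μ := by
  refine (FE μ).le_topologicalClosure ⟨(μ A).toNNReal / (μ A').toNNReal +
    (μ A').toNNReal / (μ A).toNNReal, ?_, ?_⟩
  · intro ξ
    refine (ex_atom hA.1 hA.2.2.1 hA' ξ).trans ?_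
    gcongr
    exact le_self_add
  · intro ξ
    rw [InnerProductSpace.adjoint_rankOne]
    refine (ex_atom hA'.1 hA'.2.2.1 hA ξ).trans ?_
    gcongr
    exact le_add_self

/-- a nonzero element of `L²` is bounded below on a set of positive finite measure -/
theorem exists_set (f : Lp ℂ 2 μ) (hf : f ≠ 0) : ∃ B, MeasurableSet B ∧ μ B ≠ 0 ∧ μ B ≠ ⊤ ∧
    ∀ x ∈ B, f x ≠ 0 := by
  by_contra hcon
  push Not at hcon
  apply hf
  have hm := (Lp.stronglyMeasurable f).measurable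
  have h1 : ∀ n : ℕ, μ {x | (1 / ((n : ℝ≥0) + 1)) ≤ ‖f x‖₊} = 0 := by
    intro n
    by_contra h
    have h2 : μ {x | (1 / ((n : ℝ≥0) + 1)) ≤ ‖f x‖₊} < ⊤ :=
      (Lp.memLp f).meas_ge_lt_top (by norm_num) (by norm_num) (by positivity)
    obtain ⟨x, hx, hx2⟩ := hcon _ (measurableSet_le measurable_const hm.nnnorm) h h2.ne
    have hx' : (1 / ((n : ℝ≥0) + 1)) ≤ ‖f x‖₊ := hx
    rw [hx2, nnnorm_zero] at hx'
    have : (0 : ℝ≥0) < 1 / ((n : ℝ≥0) + 1) := by positivity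
    exact absurd hx' (not_le.2 this)
  rw [Lp.eq_zero_iff_ae_eq_zero]
  have h3 := measure_iUnion_null h1
  refine measure_mono_null ?_ h3
  intro x hx
  have hx' : f x ≠ 0 := hx
  have hpos : 0 < ‖f x‖₊ := nnnorm_pos.2 hx'
  obtain ⟨n, hn⟩ := exists_nat_one_div_lt (K := ℝ) (show (0 : ℝ) < ‖f x‖ from norm_pos_iff.2 hx')
  refine mem_iUnion.2 ⟨n, ?_⟩
  show (1 / ((n : ℝ≥0) + 1)) ≤ ‖f x‖₊
  rw [← NNReal.coe_le_coe]
  push_cast
  exact hn.le

/-- a set on which all integrals of `f` vanish -/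
theorem zero_on {f : Lp ℂ 2 μ} (hA : MeasurableSet A) (hAf : μ A ≠ ⊤)
    (h : ∀ S ⊆ A, MeasurableSet S → ∫ x in S, f x ∂μ = 0) : ∀ᵐ x ∂μ, x ∈ A → f x = 0 := by
  have hm : MemLp (A.indicator f) 2 μ := (Lp.memLp f).indicator hA
  set g : Lp ℂ 2 μ := hm.toLp _ with hg
  have hge : g =ᵐ[μ] A.indicator f := hm.coeFn_toLp
  have h0 : g =ᵐ[μ] 0 := by
    refine Lp.ae_eq_zero_of_forall_setIntegral_eq_zero g (by norm_num) (by norm_num)
      (fun s hs hμs => integrableOn_Lp_of_measure_ne_top g (by norm_num) hμs.ne) ?_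
    intro S hS _
    rw [setIntegral_congr_ae hS (g := A.indicator f) (by
      filter_upwards [hge] with x hx _ using hx), setIntegral_indicator hA]
    exact h _ inter_subset_right (hS.inter hA)
  filter_upwards [hge, h0] with x h1 h2 h3
  rw [h1, indicator_of_mem h3] at h2
  exact h2

theorem total_all (f : Lp ℂ 2 μ)
    (h : ∀ A (hA : MeasurableSet A) (hf : μ A ≠ ⊤), ⟪ind μ hA hf, f⟫_ℂ = 0) : f = 0 := by
  by_contra hne
  obtain ⟨B, hB, hB0, hBf, hB1⟩ := exists_set f hne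
  have h1 := zero_on (f := f) hB hBf fun S hS hSm => by
    rw [← inner_ind hSm (measure_ne_top_of_subset hS hBf)]
    exact h _ _ _
  apply hB0
  rw [ae_iff] at h1
  refine measure_mono_null ?_ h1
  intro x hx
  simp only [mem_setOf_eq, Classical.not_imp]
  exact ⟨hx, hB1 x hx⟩

theorem total_atoms (hno : ∀ B, ¬ Atomless μ B) (f : Lp ℂ 2 μ)
    (h : ∀ A (hA : Atom μ A), ⟪ind μ hA.1 hA.2.2.1, f⟫_ℂ = 0) : f = 0 := by
  by_contra hne
  obtain ⟨B, hB, hB0, hBf, hB1⟩ := exists_set f hne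
  have h1 : ∃ A ⊆ B, Atom μ A := by
    by_contra hc
    push Not at hc
    exact hno B ⟨hB, hB0, hBf, hc⟩
  obtain ⟨A, hAB, hA⟩ := h1
  have h2 := zero_on (f := f) hA.1 hA.2.2.1 fun S hS hSm => by
    rcases hA.2.2.2 S hS hSm with h3 | h3
    · rw [Measure.restrict_eq_zero.2 h3]; simp
    · have h4 := h A hA
      rw [inner_ind] at h4
      rw [← h4]
      refine setIntegral_congr_set ?_
      rw [ae_eq_set]
      refine ⟨?_, h3⟩
      rw [diff_eq_empty.2 hS, measure_empty]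
  apply hA.2.1
  rw [ae_iff] at h2
  refine measure_mono_null ?_ h2
  intro x hx
  simp only [mem_setOf_eq, Classical.not_imp]
  exact ⟨hx, hB1 x (hAB hx)⟩

theorem isClosed_Cu : IsClosed ((Cu μ : Submodule ℂ (Lp ℂ 2 μ →L[ℂ] Lp ℂ 2 μ)) :
    Set (Lp ℂ 2 μ →L[ℂ] Lp ℂ 2 μ)) := Submodule.isClosed_topologicalClosure _

theorem compact_of_no_atoms (hc : ∀ B, MeasurableSet B → μ B ≠ ⊤ → CG μ B)
    (hno : ∀ A, ¬ Atom μ A) (K : Lp ℂ 2 μ →L[ℂ] Lp ℂ 2 μ) (hK : IsCompactOperator K) :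
    K ∈ Cu μ := by
  refine compact_mem _ isClosed_Cu (fun f g => ?_) K hK
  refine rank_total _ isClosed_Cu
    {f | ∃ (A : Set X) (hA : MeasurableSet A) (hf : μ A ≠ ⊤), f = ind μ hA hf} ?_ ?_ f g
  · intro f hf
    exact total_all f fun A hA hAf => hf _ ⟨A, hA, hAf, rfl⟩
  · rintro _ ⟨A, hA, hAf, rfl⟩ _ ⟨B, hB, hBf, rfl⟩
    have hz : ∀ (S : Set X) (hS : MeasurableSet S) (hf : μ S ≠ ⊤), μ S = 0 → ind μ hS hf = 0 := by
      intro S hS hf h0
      have : ‖ind μ hS hf‖ = 0 := by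
        rw [ind, norm_indicatorConstLp (by norm_num) (by norm_num)]
        simp [Measure.real, h0]
      exact norm_eq_zero.1 this
    by_cases hA0 : μ A = 0
    · rw [hz A hA hAf hA0, map_zero]
      exact (Cu μ).zero_mem
    by_cases hB0 : μ B = 0
    · rw [hz B hB hBf hB0, map_zero]
      exact (Cu μ).zero_mem
    obtain ⟨φ, hφ⟩ := nice_of_atomless ⟨hA, hA0, hAf, fun A _ => hno A⟩ (hc A hA hAf)
    obtain ⟨ψ, hψ⟩ := nice_of_atomless ⟨hB, hB0, hBf, fun A _ => hno A⟩ (hc B hB hBf)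
    exact rank_nice hφ hψ hA hB hA0 hB0 hAf hBf

theorem compact_of_atomic (hno : ∀ B, ¬ Atomless μ B) (K : Lp ℂ 2 μ →L[ℂ] Lp ℂ 2 μ)
    (hK : IsCompactOperator K) : K ∈ Cu μ := by
  refine compact_mem _ isClosed_Cu (fun f g => ?_) K hK
  refine rank_total _ isClosed_Cu
    {f | ∃ (A : Set X) (hA : Atom μ A), f = ind μ hA.1 hA.2.2.1} ?_ ?_ f g
  · intro f hf
    exact total_atoms hno f fun A hA => hf _ ⟨A, hA, rfl⟩
  · rintro _ ⟨A, hA, rfl⟩ _ ⟨B, hB, rfl⟩
    exact rank_atom hA hB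

theorem compact_rankOne {H : Type*} [NormedAddCommGroup H] [InnerProductSpace ℂ H]
    (f g : H) : IsCompactOperator (InnerProductSpace.rankOne ℂ f g) :=
  ((isCompactOperator_id (E := ℂ)).comp_clm (innerSL ℂ g)).clm_comp
    (ContinuousLinearMap.toSpanSingleton ℂ f)

theorem ind_ne_zero (hA : MeasurableSet A) (hf : μ A ≠ ⊤) (h0 : μ A ≠ 0) : ind μ hA hf ≠ 0 := by
  intro h
  have : ‖ind μ hA hf‖ = 0 := by rw [h, norm_zero]
  rw [ind, norm_indicatorConstLp (by norm_num) (by norm_num)] at this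
  simp only [norm_one, one_mul] at this
  have h1 : 0 < μ.real A := ENNReal.toReal_pos h0 hf
  have := Real.rpow_pos_of_pos h1 (1 / (2 : ℝ≥0∞).toReal)
  linarith

theorem exists_compact (hc : ∀ B, MeasurableSet B → μ B ≠ ⊤ → CG μ B)
    (hnt : Nontrivial (Lp ℂ 2 μ)) : ∃ K : Lp ℂ 2 μ →L[ℂ] Lp ℂ 2 μ,
      IsCompactOperator K ∧ K ≠ 0 ∧ K ∈ Cu μ := by
  obtain ⟨f, hf⟩ := exists_ne (0 : Lp ℂ 2 μ)
  obtain ⟨B, hB, hB0, hBf, -⟩ := exists_set f hf
  by_cases h : ∃ A, Atom μ A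
  · obtain ⟨A, hA⟩ := h
    exact ⟨_, compact_rankOne _ _, InnerProductSpace.rankOne_ne_zero
      (ind_ne_zero hA.1 hA.2.2.1 hA.2.1) (ind_ne_zero hA.1 hA.2.2.1 hA.2.1), rank_atom hA hA⟩
  · push Not at h
    exact ⟨_, compact_rankOne _ _, InnerProductSpace.rankOne_ne_zero
      (ind_ne_zero hB hBf hB0) (ind_ne_zero hB hBf hB0),
      compact_of_no_atoms hc h _ (compact_rankOne _ _)⟩

end Pool.Agent.Q192.SE
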