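import Pool.Agent.Q192.SE.Mixed

/-!
# The block structure of the support expansion algebra

The atomic and the atomless part of `L²(X, μ)` are two invariant subspaces of the support expansion
algebra, and the algebra contains all rank one operators of each of the two parts.
-/

open MeasureTheory Set Filter Topology
open scoped InnerProductSpace NNReal ENNReal

namespace Pool.Agent.Q192.SE

section abstract

variable {H : Type*} [NormedAddCommGroup H] [InnerProductSpace ℂ H] [CompleteSpace H]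

/-- a space of operators which is block diagonal with respect to two closed subspaces and contains
the rank one operators of the two blocks -/
structure Blocks (M : Submodule ℂ (H →L[ℂ] H)) (V W : Submodule ℂ H) : Prop where
  orth : ∀ f ∈ V, ∀ g ∈ W, ⟪f, g⟫_ℂ = 0
  total : ∀ f : H, (∀ g ∈ V, ⟪g, f⟫_ℂ = 0) → (∀ g ∈ W, ⟪g, f⟫_ℂ = 0) → f = 0
  rankV : ∀ f ∈ V, ∀ g ∈ V, InnerProductSpace.rankOne ℂ f g ∈ M
  rankW : ∀ f ∈ W, ∀ g ∈ W, InnerProductSpace.rankOne ℂ f g ∈ M
  offVW : ∀ a ∈ M, ∀ f ∈ V, ∀ g ∈ W, ⟪f, a g⟫_ℂ = 0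
  offWV : ∀ a ∈ M, ∀ f ∈ W, ∀ g ∈ V, ⟪f, a g⟫_ℂ = 0
  closedV : IsClosed (V : Set H)
  closedW : IsClosed (W : Set H)
  mul : ∀ a ∈ M, ∀ b ∈ M, a ∘L b ∈ M
  adj : ∀ a ∈ M, a.adjoint ∈ M

theorem rank_span (M : Submodule ℂ (H →L[ℂ] H)) (hM : IsClosed (M : Set (H →L[ℂ] H)))
    (G : Set H) (hr : ∀ f ∈ G, ∀ g ∈ G, InnerProductSpace.rankOne ℂ f g ∈ M) :
    ∀ f ∈ (Submodule.span ℂ G).topologicalClosure, ∀ g ∈ (Submodule.span ℂ G).topologicalClosure,
      InnerProductSpace.rankOne ℂ f g ∈ M := by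
  have step : ∀ N : Submodule ℂ H, IsClosed (N : Set H) → G ⊆ N →
      ∀ x ∈ (Submodule.span ℂ G).topologicalClosure, x ∈ N := by
    intro N hN hGN x hx
    exact Submodule.topologicalClosure_minimal _ (Submodule.span_le.2 hGN) hN hx
  have h1 : ∀ g ∈ G, ∀ f ∈ (Submodule.span ℂ G).topologicalClosure,
      InnerProductSpace.rankOne ℂ f g ∈ M := by
    intro g hg
    let L : H →L[ℂ] (H →L[ℂ] H) := (InnerProductSpace.rankOne ℂ (E := H) (F := H)).flip g
    intro f hf
    have := step (M.comap L.toLinearMap) (hM.preimage L.continuous) (fun x hx => hr x hx g hg) f hf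
    exact this
  intro f hf g hg
  let N : Submodule ℂ H :=
    { carrier := {g | InnerProductSpace.rankOne ℂ f g ∈ M}
      add_mem' := fun {a b} ha hb => by
        show InnerProductSpace.rankOne ℂ f (a + b) ∈ M
        rw [map_add]; exact M.add_mem ha hb
      zero_mem' := by
        show InnerProductSpace.rankOne ℂ f 0 ∈ M
        rw [map_zero]; exact M.zero_mem
      smul_mem' := fun c a ha => by
        show InnerProductSpace.rankOne ℂ f (c • a) ∈ M
        rw [map_smulₛₗ]; exact M.smul_mem _ ha }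
  exact step N (hM.preimage (InnerProductSpace.rankOne ℂ f).continuous) (fun x hx => h1 x hx f hf)
    g hg

/-- two total sets which are orthogonal under an operator have orthogonal closed spans -/
theorem inner_span (a : H →L[ℂ] H) (F G : Set H) (h : ∀ f ∈ F, ∀ g ∈ G, ⟪f, a g⟫_ℂ = 0) :
    ∀ f ∈ (Submodule.span ℂ F).topologicalClosure, ∀ g ∈ (Submodule.span ℂ G).topologicalClosure,
      ⟪f, a g⟫_ℂ = 0 := by
  have h1 : ∀ f ∈ F, ∀ g ∈ (Submodule.span ℂ G).topologicalClosure, ⟪f, a g⟫_ℂ = 0 := by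
    intro f hf g hg
    have h2 : (Submodule.span ℂ G).topologicalClosure ≤
        LinearMap.ker ((innerSL ℂ f) ∘L a).toLinearMap := by
      refine Submodule.topologicalClosure_minimal _ (Submodule.span_le.2 fun x hx => ?_)
        (((innerSL ℂ f) ∘L a).isClosed_ker)
      exact h f hf x hx
    exact h2 hg
  intro f hf g hg
  have h3 : (Submodule.span ℂ F).topologicalClosure ≤
      LinearMap.ker (innerSL ℂ (a g)).toLinearMap := by
    refine Submodule.topologicalClosure_minimal _ (Submodule.span_le.2 fun x hx => ?_)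
      ((innerSL ℂ (a g)).isClosed_ker)
    show ⟪a g, x⟫_ℂ = 0
    rw [← inner_conj_symm, h1 x hx g hg, map_zero]
  have h4 : ⟪a g, f⟫_ℂ = 0 := h3 hf
  rw [← inner_conj_symm, h4, map_zero]

end abstract

variable {X : Type*} [MeasurableSpace X] {μ : Measure X} {A B : Set X} {φ : X → ℝ}

theorem Cu_mul : ∀ a ∈ Cu μ, ∀ b ∈ Cu μ, a ∘L b ∈ Cu μ := by
  intro a ha b hb
  have hc : Continuous (fun p : (Lp ℂ 2 μ →L[ℂ] Lp ℂ 2 μ) × (Lp ℂ 2 μ →L[ℂ] Lp ℂ 2 μ) =>
      p.1 ∘L p.2) := by fun_prop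
  refine map_mem_closure₂ (f := fun a b : Lp ℂ 2 μ →L[ℂ] Lp ℂ 2 μ => a ∘L b) hc ha hb ?_
  rintro a ⟨l, hl⟩ b ⟨k, hk⟩
  exact ⟨_, hl.comp hk⟩

theorem Cu_adj : ∀ a ∈ Cu μ, a.adjoint ∈ Cu μ := by
  intro a ha
  refine map_mem_closure (f := fun a : Lp ℂ 2 μ →L[ℂ] Lp ℂ 2 μ => a.adjoint)
    ContinuousLinearMap.adjoint.continuous ha ?_
  rintro a ⟨l, hl⟩
  exact ⟨_, hl.adj⟩

/-- the atomic part -/
noncomputable def Vat (μ : Measure X) : Submodule ℂ (Lp ℂ 2 μ) :=
  (Submodule.span ℂ {f | ∃ (A : Set X) (hA : Atom μ A), f = ind μ hA.1 hA.2.2.1}).topologicalClosure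

/-- the atomless part -/
noncomputable def Wat (μ : Measure X) : Submodule ℂ (Lp ℂ 2 μ) :=
  (Submodule.span ℂ {f | ∃ (B : Set X) (hB : Atomless μ B),
    f = ind μ hB.1 hB.2.2.1}).topologicalClosure

theorem blocks (hc : ∀ B, MeasurableSet B → μ B ≠ ⊤ → CG μ B) :
    Blocks (Cu μ) (Vat μ) (Wat μ) := by
  have hoff : ∀ a ∈ Cu μ, ∀ f ∈ Vat μ, ∀ g ∈ Wat μ, ⟪f, a g⟫_ℂ = 0 := by
    intro a ha
    refine inner_span a _ _ ?_
    rintro _ ⟨A, hA, rfl⟩ _ ⟨B, hB, rfl⟩
    obtain ⟨φ, hφ⟩ := nice_of_atomless hB (hc B hB.1 hB.2.2.1)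
    have hcl : IsClosed {a : Lp ℂ 2 μ →L[ℂ] Lp ℂ 2 μ |
        ⟪ind μ hA.1 hA.2.2.1, a (ind μ hB.1 hB.2.2.1)⟫_ℂ = 0} :=
      isClosed_eq (by fun_prop) continuous_const
    have h1 : closure ((FE μ : Submodule ℂ (Lp ℂ 2 μ →L[ℂ] Lp ℂ 2 μ)) : Set _) ⊆
        {a : Lp ℂ 2 μ →L[ℂ] Lp ℂ 2 μ |
          ⟪ind μ hA.1 hA.2.2.1, a (ind μ hB.1 hB.2.2.1)⟫_ℂ = 0} := by
      refine closure_minimal ?_ hcl
      rintro a ⟨l, hl⟩
      exact ex_zero hl hA hφ hB.1 hB.2.2.1
    exact h1 ha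
  have hone : (ContinuousLinearMap.id ℂ (Lp ℂ 2 μ)) ∈ Cu μ := by
    refine (FE μ).le_topologicalClosure ⟨1, ?_, ?_⟩
    · intro ξ
      rw [ContinuousLinearMap.id_apply]
      simp
    · intro ξ
      rw [ContinuousLinearMap.adjoint_id, ContinuousLinearMap.id_apply]
      simp
  refine ⟨fun f hf g hg => hoff _ hone f hf g hg, ?_, ?_, ?_, hoff, ?_,
    Submodule.isClosed_topologicalClosure _, Submodule.isClosed_topologicalClosure _, Cu_mul,
    Cu_adj⟩
  · intro f hV hW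
    by_contra hne
    obtain ⟨B, hB, hB0, hBf, hB1⟩ := exists_set f hne
    by_cases h : ∃ A ⊆ B, Atom μ A
    · obtain ⟨A, hAB, hA⟩ := h
      have h4 := hV _ (Submodule.le_topologicalClosure _ (Submodule.subset_span ⟨A, hA, rfl⟩))
      have h2 := zero_on (f := f) hA.1 hA.2.2.1 fun S hS hSm => by
        rcases hA.2.2.2 S hS hSm with h3 | h3
        · rw [Measure.restrict_eq_zero.2 h3]; simp
        · rw [inner_ind] at h4
          rw [← h4]
          refine setIntegral_congr_set ?_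
          rw [ae_eq_set]
          refine ⟨?_, h3⟩
          rw [diff_eq_empty.2 hS, measure_empty]
      apply hA.2.1
      rw [ae_iff] at h2
      refine measure_mono_null ?_ h2
      intro x hx
      simp only [mem_setOf_eq, Classical.not_imp]
      exact ⟨hx, hB1 x (hAB hx)⟩
    · push Not at h
      have h2 := zero_on (f := f) hB hBf fun S hS hSm => by
        by_cases h3 : μ S = 0
        · rw [Measure.restrict_eq_zero.2 h3]; simp
        · have hSA : Atomless μ S := ⟨hSm, h3, measure_ne_top_of_subset hS hBf,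
            fun A hA => h A (hA.trans hS)⟩
          have h4 := hW _ (Submodule.le_topologicalClosure _
            (Submodule.subset_span ⟨S, hSA, rfl⟩))
          rwa [inner_ind] at h4
      apply hB0
      rw [ae_iff] at h2
      refine measure_mono_null ?_ h2
      intro x hx
      simp only [mem_setOf_eq, Classical.not_imp]
      exact ⟨hx, hB1 x hx⟩
  · refine rank_span _ isClosed_Cu _ ?_
    rintro _ ⟨A, hA, rfl⟩ _ ⟨B, hB, rfl⟩
    exact rank_atom hA hB
  · refine rank_span _ isClosed_Cu _ ?_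
    rintro _ ⟨A, hA, rfl⟩ _ ⟨B, hB, rfl⟩
    obtain ⟨φ, hφ⟩ := nice_of_atomless hA (hc A hA.1 hA.2.2.1)
    obtain ⟨ψ, hψ⟩ := nice_of_atomless hB (hc B hB.1 hB.2.2.1)
    exact rank_nice hφ hψ hA.1 hB.1 hA.2.1 hB.2.1 hA.2.2.1 hB.2.2.1
  · intro a ha f hf g hg
    have h1 := hoff _ (Cu_adj a ha) g hg f hf
    rw [ContinuousLinearMap.adjoint_inner_right] at h1
    rw [← inner_conj_symm, h1, map_zero]

end Pool.Agent.Q192.SE
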