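import Mathlib

/-!
# The distribution function of an atomless measure as an isomorphism onto the unit interval
-/

open MeasureTheory Set Filter Topology ProbabilityTheory

namespace Pool.Agent.Q192.SE

theorem continuous_cdf (m : Measure ℝ) [IsProbabilityMeasure m] (hm : ∀ t, m {t} = 0) :
    Continuous (cdf m) := by
  rw [continuous_iff_continuousAt]
  intro a
  rw [(monotone_cdf m).continuousAt_iff_leftLim_eq_rightLim]
  have h1 : Function.rightLim (cdf m) a = cdf m a := StieltjesFunction.rightLim_eq _ _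
  have h2 : (cdf m).measure {a} = ENNReal.ofReal (cdf m a - Function.leftLim (cdf m) a) :=
    StieltjesFunction.measure_singleton _ _
  rw [measure_cdf, hm, eq_comm, ENNReal.ofReal_eq_zero] at h2
  have h3 := (monotone_cdf m).leftLim_le (le_refl a)
  rw [h1]
  linarith

theorem measure_le_cdf (m : Measure ℝ) [IsProbabilityMeasure m] (hm : ∀ t, m {t} = 0) {t : ℝ}
    (h0 : 0 ≤ t) (h1 : t ≤ 1) : m (cdf m ⁻¹' Iic t) = ENNReal.ofReal t := by
  have hc := continuous_cdf m hm
  rcases eq_or_lt_of_le h1 with rfl | h1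
  · have : cdf m ⁻¹' Iic 1 = univ := by
      ext x; simp [cdf_le_one]
    rw [this]; simp
  set L : Set ℝ := cdf m ⁻¹' Iic t with hL
  have hclosed : IsClosed L := isClosed_Iic.preimage hc
  by_cases hne : L.Nonempty
  · obtain ⟨M, hM⟩ := ((tendsto_cdf_atTop m).eventually (lt_mem_nhds h1)).exists
    have hbdd : BddAbove L := ⟨M, fun x hx => by
      by_contra hlt
      push Not at hlt
      have := monotone_cdf m hlt.le
      have h2 : cdf m x ≤ t := hx
      linarith⟩
    set s := sSup L with hs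
    have hsL : s ∈ L := hclosed.csSup_mem hne hbdd
    have hLs : L = Iic s := by
      ext x
      constructor
      · intro hx; exact le_csSup hbdd hx
      · intro hx
        exact (monotone_cdf m hx).trans hsL
    have hFs : cdf m s = t := by
      refine le_antisymm hsL ?_
      by_contra hlt
      push Not at hlt
      have h3 : ∀ᶠ x in 𝓝 s, cdf m x < t := hc.continuousAt.eventually (gt_mem_nhds hlt)
      obtain ⟨x, hx1, hx2⟩ := (h3.filter_mono (nhdsWithin_le_nhds (s := Ioi s))).and
        self_mem_nhdsWithin |>.exists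
      have : x ≤ s := le_csSup hbdd hx1.le
      exact absurd hx2 (not_lt.2 this)
    rw [hLs, ← ofReal_cdf m s, hFs]
  · rw [Set.not_nonempty_iff_eq_empty] at hne
    rw [hne, measure_empty]
    have : t = 0 := by
      by_contra h
      have ht : 0 < t := lt_of_le_of_ne h0 (Ne.symm h)
      obtain ⟨x, hx⟩ := ((tendsto_cdf_atBot m).eventually (gt_mem_nhds ht)).exists
      have : x ∈ L := hx.le
      rw [hne] at this
      exact this
    rw [this]; simp

theorem map_cdf (m : Measure ℝ) [IsProbabilityMeasure m] (hm : ∀ t, m {t} = 0) :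
    m.map (cdf m) = volume.restrict (Icc 0 1) := by
  have hc := continuous_cdf m hm
  have : IsFiniteMeasure (m.map (cdf m)) := Measure.isFiniteMeasure_map m _
  refine Measure.ext_of_Iic _ _ fun t => ?_
  rw [Measure.map_apply hc.measurable measurableSet_Iic,
    Measure.restrict_apply measurableSet_Iic]
  by_cases h0 : t < 0
  · have e1 : cdf m ⁻¹' Iic t = ∅ := by
      ext x
      simp only [mem_preimage, mem_Iic, mem_empty_iff_false, iff_false, not_le]
      exact h0.trans_le (cdf_nonneg m x)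
    have e2 : Iic t ∩ Icc (0 : ℝ) 1 = ∅ := by
      ext x
      simp only [mem_inter_iff, mem_Iic, mem_Icc, mem_empty_iff_false, iff_false]
      rintro ⟨h1, h2, -⟩
      linarith
    rw [e1, e2, measure_empty, measure_empty]
  push Not at h0
  by_cases h1 : t ≤ 1
  · rw [measure_le_cdf m hm h0 h1]
    have e2 : Iic t ∩ Icc (0 : ℝ) 1 = Icc 0 t := by
      ext x
      simp only [mem_inter_iff, mem_Iic, mem_Icc]
      constructor
      · rintro ⟨a, b, c⟩; exact ⟨b, a⟩
      · rintro ⟨a, b⟩; exact ⟨b, a, b.trans h1⟩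
    rw [e2, Real.volume_Icc, sub_zero]
  · push Not at h1
    have e1 : cdf m ⁻¹' Iic t = univ := by
      ext x
      simp only [mem_preimage, mem_Iic, mem_univ, iff_true]
      exact (cdf_le_one m x).trans h1.le
    have e2 : Iic t ∩ Icc (0 : ℝ) 1 = Icc 0 1 := by
      ext x
      simp only [mem_inter_iff, mem_Iic, mem_Icc]
      constructor
      · rintro ⟨a, b⟩; exact b
      · rintro ⟨a, b⟩; exact ⟨b.trans h1.le, a, b⟩
    rw [e1, e2, Real.volume_Icc]
    simp

theorem cdf_generates (m : Measure ℝ) [IsProbabilityMeasure m] (hm : ∀ t, m {t} = 0) (T : Set ℝ)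
    (hT : MeasurableSet T) : ∃ T', MeasurableSet T' ∧ cdf m ⁻¹' T' =ᵐ[m] T := by
  have hc := continuous_cdf m hm
  have hT2 : @MeasurableSet ℝ (MeasurableSpace.generateFrom (range Iic)) T := by
    rw [← borel_eq_generateFrom_Iic ℝ, ← BorelSpace.measurable_eq (α := ℝ)]
    exact hT
  clear hT
  induction T, hT2 using MeasurableSpace.generateFrom_induction with
  | hC t ht _ =>
    obtain ⟨s, rfl⟩ := ht
    refine ⟨Iic (cdf m s), measurableSet_Iic, ?_⟩
    have hsub : Iic s ⊆ cdf m ⁻¹' Iic (cdf m s) := fun x hx => monotone_cdf m hx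
    refine (ae_eq_of_subset_of_measure_ge hsub ?_ measurableSet_Iic.nullMeasurableSet
      (measure_ne_top _ _)).symm
    rw [measure_le_cdf m hm (cdf_nonneg m s) (cdf_le_one m s), ofReal_cdf]
  | empty => exact ⟨∅, MeasurableSet.empty, by simp⟩
  | compl t _ h =>
    obtain ⟨T', h1, h2⟩ := h
    exact ⟨T'ᶜ, h1.compl, by rw [preimage_compl]; exact h2.compl⟩
  | iUnion f _ h =>
    choose T' h1 h2 using h
    refine ⟨⋃ i, T' i, MeasurableSet.iUnion h1, ?_⟩
    rw [preimage_iUnion]
    exact EventuallyEq.countable_iUnion h2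

/-- an isomorphism modulo null sets of the set `B` with the unit interval -/
structure Nice {X : Type*} [MeasurableSpace X] (μ : Measure X) (B : Set X) (φ : X → ℝ) : Prop where
  meas : Measurable φ
  map : (μ.restrict B).map φ = μ B • volume.restrict (Icc (0 : ℝ) 1)
  gen : ∀ S, MeasurableSet S → ∃ T, MeasurableSet T ∧ (φ ⁻¹' T ∩ B : Set X) =ᵐ[μ] (S ∩ B : Set X)

theorem exists_nice {X : Type*} [MeasurableSpace X] (μ : Measure X) {B : Set X}
    (hB : MeasurableSet B) (h0 : μ B ≠ 0) (hfin : μ B ≠ ⊤) (e : X → ℝ) (he : Measurable e)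
    (hgen : ∀ S, MeasurableSet S →
      ∃ T, MeasurableSet T ∧ (e ⁻¹' T ∩ B : Set X) =ᵐ[μ] (S ∩ B : Set X))
    (hatom : ∀ t, μ (e ⁻¹' {t} ∩ B) = 0) : ∃ φ : X → ℝ, Nice μ B φ := by
  set m : Measure ℝ := (μ B)⁻¹ • (μ.restrict B).map e with hmdef
  have hprob : IsProbabilityMeasure m := ⟨by
    rw [hmdef, Measure.smul_apply, Measure.map_apply he MeasurableSet.univ, preimage_univ,
      Measure.restrict_apply_univ, smul_eq_mul, ENNReal.inv_mul_cancel h0 hfin]⟩
  have hm : ∀ t, m {t} = 0 := by
    intro t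
    rw [hmdef, Measure.smul_apply, Measure.map_apply he (measurableSet_singleton t),
      Measure.restrict_apply (he (measurableSet_singleton t)), hatom, smul_zero]
  have hm2 : (μ.restrict B).map e = μ B • m := by
    rw [hmdef, smul_smul, ENNReal.mul_inv_cancel h0 hfin, one_smul]
  have hc := (continuous_cdf m hm).measurable
  refine ⟨cdf m ∘ e, hc.comp he, ?_, ?_⟩
  · rw [← Measure.map_map hc he, hm2, Measure.map_smul, map_cdf m hm]
  · intro S hS
    obtain ⟨T, hT, h1⟩ := hgen S hS
    obtain ⟨T', hT', h2⟩ := cdf_generates m hm T hT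
    refine ⟨T', hT', EventuallyEq.trans ?_ h1⟩
    have h3 : cdf m ⁻¹' T' =ᵐ[(μ.restrict B).map e] T := by
      rw [hm2]
      exact Measure.smul_absolutelyContinuous.ae_eq h2
    have h4 : e ⁻¹' (cdf m ⁻¹' T') =ᵐ[μ.restrict B] e ⁻¹' T :=
      (he.quasiMeasurePreserving (μ.restrict B)).preimage_ae_eq h3
    rw [preimage_comp]
    have h5 := (ae_restrict_iff' hB).1 h4
    filter_upwards [h5] with x hx
    by_cases hxB : x ∈ B
    · have := hx hxB
      show (x ∈ e ⁻¹' (cdf m ⁻¹' T') ∧ x ∈ B) = (x ∈ e ⁻¹' T ∧ x ∈ B)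
      have h6 : (x ∈ e ⁻¹' (cdf m ⁻¹' T')) = (x ∈ e ⁻¹' T) := this
      rw [h6]
    · show (x ∈ e ⁻¹' (cdf m ⁻¹' T') ∧ x ∈ B) = (x ∈ e ⁻¹' T ∧ x ∈ B)
      simp [hxB]

end Pool.Agent.Q192.SE
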