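import Pool.Agent.Q192.SE.Emb

/-!
# Rank one operators as norm limits of operators of finite support expansion
-/

open MeasureTheory Set Filter Topology
open scoped InnerProductSpace NNReal ENNReal

namespace Pool.Agent.Q192.SE

variable {X : Type*} [MeasurableSpace X] {μ : Measure X} {B : Set X} {φ : X → ℝ}

/-- the operators of finite support expansion -/
noncomputable def FE (μ : Measure X) : Submodule ℂ (Lp ℂ 2 μ →L[ℂ] Lp ℂ 2 μ) where
  carrier := {a | ∃ l, Ex μ μ l a}
  add_mem' := fun ⟨l, hl⟩ ⟨k, hk⟩ => ⟨l + k, hl.add hk⟩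
  zero_mem' := ⟨0, Ex.zero⟩
  smul_mem' := fun c _ ⟨l, hl⟩ => ⟨l, hl.smul c⟩

/-- the support expansion algebra -/
noncomputable def Cu (μ : Measure X) : Submodule ℂ (Lp ℂ 2 μ →L[ℂ] Lp ℂ 2 μ) := (FE μ).topologicalClosure

theorem inf_TT : Infinite TT := by
  refine Infinite.of_injective
    (fun n : ℕ => (![((1 / ((n : ℝ) + 2) : ℝ) : UnitAddCircle), 0] : TT)) ?_
  intro n m h
  have h0 : ((1 / ((n : ℝ) + 2) : ℝ) : UnitAddCircle) = ((1 / ((m : ℝ) + 2) : ℝ) : UnitAddCircle) :=
    congrFun h 0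
  have hI : ∀ k : ℕ, (1 / ((k : ℝ) + 2)) ∈ Ico (0 : ℝ) (0 + 1) := fun k => by
    refine ⟨by positivity, ?_⟩
    rw [div_lt_iff₀ (by positivity)]
    have : (0 : ℝ) ≤ k := Nat.cast_nonneg k
    linarith
  have h1 := (AddCircle.coe_eq_coe_iff_of_mem_Ico (hI n) (hI m)).1 h0
  have h2 : (n : ℝ) + 2 = (m : ℝ) + 2 := by
    have := congrArg (fun x : ℝ => x⁻¹) h1
    simpa using this
  exact_mod_cast add_right_cancel h2

theorem mT_singleton (x : TT) : mT {x} = 0 := by
  by_contra h
  have h1 : ∀ y, mT {y} = mT {x} := by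
    intro y
    have := measure_preimage_add mT (y - x) {y}
    have e : (fun z => (y - x) + z) ⁻¹' {y} = {x} := by
      ext z
      simp only [mem_preimage, mem_singleton_iff]
      constructor
      · intro hz
        calc z = (y - x + z) - (y - x) := by abel
          _ = y - (y - x) := by rw [hz]
          _ = x := by abel
      · rintro rfl; abel
    rw [e] at this
    exact this.symm
  have := inf_TT
  have h2 := (Set.infinite_univ (α := TT)).meas_eq_top (μ := mT) ⟨mT {x}, h, fun y _ => (h1 y).ge⟩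
  rw [measure_univ] at h2
  exact ENNReal.one_ne_top h2

theorem gen_embedding {Y : Type*} [MeasurableSpace Y] (ν : Measure Y) {e : Y → ℝ}
    (he : MeasurableEmbedding e) (B : Set Y) (S : Set Y) (hS : MeasurableSet S) :
    ∃ T, MeasurableSet T ∧ (e ⁻¹' T ∩ B : Set Y) =ᵐ[ν] (S ∩ B : Set Y) := by
  refine ⟨e '' S, he.measurableSet_image.2 hS, ?_⟩
  have h1 : e ⁻¹' (e '' S) ∩ B = S ∩ B := by rw [he.injective.preimage_image]
  exact Filter.EventuallyEq.of_eq h1

theorem exists_nice_torus : ∃ ψ : TT → ℝ, Nice mT univ ψ := by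
  have he := measurableEmbedding_embeddingReal TT
  refine exists_nice mT MeasurableSet.univ (by simp) (by simp) (embeddingReal TT) he.measurable
    (fun S hS => gen_embedding mT he univ S hS) ?_
  intro t
  by_cases h : ∃ x, embeddingReal TT x = t
  · obtain ⟨x, rfl⟩ := h
    have : embeddingReal TT ⁻¹' {embeddingReal TT x} ∩ univ = {x} := by
      ext y
      simp only [mem_inter_iff, mem_preimage, mem_singleton_iff, mem_univ, and_true]
      exact ⟨fun h => he.injective h, fun h => by rw [h]⟩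
    rw [this, mT_singleton]
  · have : embeddingReal TT ⁻¹' {t} ∩ univ = ∅ := by
      ext y
      simp only [mem_inter_iff, mem_preimage, mem_singleton_iff, mem_univ, and_true,
        mem_empty_iff_false, iff_false]
      exact fun hy => h ⟨y, hy⟩
    rw [this, measure_empty]

/-- the indicator function of a set of finite measure -/
noncomputable def ind (μ : Measure X) {A : Set X} (hA : MeasurableSet A) (hf : μ A ≠ ⊤) :
    Lp ℂ 2 μ := indicatorConstLp 2 hA hf (1 : ℂ)

/-- the rank one operator attached to two nice sets is a limit of operators of finite support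
expansion -/
theorem rank_nice {A B : Set X} {φ ψ : X → ℝ} (hφ : Nice μ A φ) (hψ : Nice μ B ψ)
    (hA : MeasurableSet A) (hB : MeasurableSet B) (hA0 : μ A ≠ 0) (hB0 : μ B ≠ 0)
    (hAf : μ A ≠ ⊤) (hBf : μ B ≠ ⊤) :
    InnerProductSpace.rankOne ℂ (ind μ hA hAf) (ind μ hB hBf) ∈ Cu μ := by
  obtain ⟨θ, hθ⟩ := exists_nice_torus
  have hTf : mT univ ≠ ⊤ := by simp
  have hT0 : mT univ ≠ 0 := by simp
  set JT := hθ.J MeasurableSet.univ hTf with hJT
  set JA := hφ.J hA hAf with hJA
  set JB := hψ.J hB hBf with hJB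
  set oneI : Lp ℂ 2 vI := indicatorConstLp 2 MeasurableSet.univ (measure_ne_top vI univ) (1 : ℂ)
    with hone
  have e1 : JT oneI = oneT := by
    rw [hJT, hone, hθ.J_ind MeasurableSet.univ hTf MeasurableSet.univ (S := univ)
      MeasurableSet.univ (by rfl)]
    refine Lp.ext (indicatorConstLp_coeFn.trans (EventuallyEq.trans ?_ coeFn_oneT.symm))
    simp
  have e2 : JT.adjoint oneT = oneI := by
    rw [← e1, hJT, hθ.adj_J]
    simp
  have e3 : JA oneI = ind μ hA hAf := by
    rw [hJA, hone, hφ.J_ind hA hAf MeasurableSet.univ (S := univ) MeasurableSet.univ (by rfl)]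
    refine Lp.ext (indicatorConstLp_coeFn.trans (EventuallyEq.trans ?_ indicatorConstLp_coeFn.symm))
    simp
  have e4 : JB oneI = ind μ hB hBf := by
    rw [hJB, hone, hψ.J_ind hB hBf MeasurableSet.univ (S := univ) MeasurableSet.univ (by rfl)]
    refine Lp.ext (indicatorConstLp_coeFn.trans (EventuallyEq.trans ?_ indicatorConstLp_coeFn.symm))
    simp
  choose Φ hΦ hgap using fun n : ℕ => torus_gap (n + 1) n.succ_pos
  set U : ℕ → (Lp ℂ 2 mT →L[ℂ] Lp ℂ 2 mT) := fun n => (((n + 1 : ℕ) : ℂ))⁻¹ •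
    ∑ i, (Lp.compMeasurePreservingₗᵢ ℂ (p := 2) (E := ℂ) (Φ n i) (hΦ n i)).toContinuousLinearMap
    with hU
  have hUex : ∀ n, ∃ l, Ex mT mT l (U n) := by
    intro n
    obtain ⟨l, hl⟩ := Ex.sum (n := n + 1) (a := fun i =>
      (Lp.compMeasurePreservingₗᵢ ℂ (p := 2) (E := ℂ) (Φ n i) (hΦ n i)).toContinuousLinearMap)
      fun i => ⟨1, ex_mp (hΦ n i)⟩
    exact ⟨l, hl.smul _⟩
  have hlim : Tendsto U atTop (𝓝 (InnerProductSpace.rankOne ℂ oneT oneT)) := by
    rw [tendsto_iff_norm_sub_tendsto_zero]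
    have hb : ∀ n, ‖U n - InnerProductSpace.rankOne ℂ oneT oneT‖ ≤
        Real.sqrt (4 / ((n : ℝ) + 1)) := by
      intro n
      refine ContinuousLinearMap.opNorm_le_bound _ (Real.sqrt_nonneg _) fun f => ?_
      have h1 := hgap n f
      have h2 : (U n - InnerProductSpace.rankOne ℂ oneT oneT) f = (((n + 1 : ℕ) : ℂ))⁻¹ •
          ∑ i, Lp.compMeasurePreservingₗᵢ ℂ (Φ n i) (hΦ n i) f - ⟪oneT, f⟫_ℂ • oneT := by
        rw [ContinuousLinearMap.sub_apply, InnerProductSpace.rankOne_apply, hU]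
        simp only [ContinuousLinearMap.smul_apply, ContinuousLinearMap.sum_apply]
        rfl
      rw [h2]
      refine abs_le_of_sq_le_sq' ?_ (by positivity) |>.2
      rw [mul_pow, Real.sq_sqrt (by positivity)]
      push_cast at h1 ⊢
      exact h1
    refine squeeze_zero (fun n => norm_nonneg _) hb ?_
    have h3 : Tendsto (fun n : ℕ => 4 / ((n : ℝ) + 1)) atTop (𝓝 0) :=
      tendsto_const_nhds.div_atTop (tendsto_natCast_atTop_atTop.atTop_add tendsto_const_nhds)
    have h4 := (Real.continuous_sqrt.tendsto 0).comp h3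
    rw [Real.sqrt_zero] at h4
    exact h4
  obtain ⟨lA, hlA⟩ := hφ.ex_J hA hA0 hAf
  obtain ⟨lB, hlB⟩ := hψ.ex_J hB hB0 hBf
  obtain ⟨lT, hlT⟩ := hθ.ex_J MeasurableSet.univ hT0 hTf
  have hmem : ∀ n, JA ∘L JT.adjoint ∘L U n ∘L JT ∘L JB.adjoint ∈ FE μ := by
    intro n
    obtain ⟨l, hl⟩ := hUex n
    exact ⟨_, hlA.comp (hlT.adj.comp (hl.comp (hlT.comp hlB.adj)))⟩
  have hcont : Continuous fun a : Lp ℂ 2 mT →L[ℂ] Lp ℂ 2 mT =>
      JA ∘L JT.adjoint ∘L a ∘L JT ∘L JB.adjoint := by fun_prop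
  have h5 := (hcont.tendsto (InnerProductSpace.rankOne ℂ oneT oneT)).comp hlim
  have h6 : JA ∘L JT.adjoint ∘L (InnerProductSpace.rankOne ℂ oneT oneT) ∘L JT ∘L JB.adjoint =
      InnerProductSpace.rankOne ℂ (ind μ hA hAf) (ind μ hB hBf) := by
    ext1 f
    simp only [ContinuousLinearMap.comp_apply, InnerProductSpace.rankOne_apply, map_smul]
    rw [e2, e3, ← ContinuousLinearMap.adjoint_inner_left, e2,
      ContinuousLinearMap.adjoint_inner_right, e4]
  rw [← h6]
  exact mem_closure_of_tendsto h5 (Eventually.of_forall hmem)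

/-! ### density and compact operators -/

variable {H : Type*} [NormedAddCommGroup H] [InnerProductSpace ℂ H] [CompleteSpace H]

theorem rank_total (M : Submodule ℂ (H →L[ℂ] H)) (hM : IsClosed (M : Set (H →L[ℂ] H)))
    (G : Set H) (hG : ∀ f : H, (∀ g ∈ G, ⟪g, f⟫_ℂ = 0) → f = 0)
    (hr : ∀ f ∈ G, ∀ g ∈ G, InnerProductSpace.rankOne ℂ f g ∈ M) (f g : H) :
    InnerProductSpace.rankOne ℂ f g ∈ M := by
  have htop : (Submodule.span ℂ G).topologicalClosure = ⊤ := by
    rw [Submodule.topologicalClosure_eq_top_iff, Submodule.eq_bot_iff]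
    intro f hf
    refine hG f fun g hg => ?_
    exact (Submodule.mem_orthogonal _ _).1 hf g (Submodule.subset_span hg)
  have step : ∀ N : Submodule ℂ H, IsClosed (N : Set H) → G ⊆ N → ∀ x, x ∈ N := by
    intro N hN hGN x
    have h1 : (Submodule.span ℂ G).topologicalClosure ≤ N :=
      Submodule.topologicalClosure_minimal _ (Submodule.span_le.2 hGN) hN
    rw [htop] at h1
    exact h1 trivial
  have h1 : ∀ g ∈ G, ∀ f, InnerProductSpace.rankOne ℂ f g ∈ M := by
    intro g hg
    let L : H →L[ℂ] (H →L[ℂ] H) := (InnerProductSpace.rankOne ℂ (E := H) (F := H)).flip g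
    intro f
    have := step (M.comap L.toLinearMap) (hM.preimage L.continuous) (fun x hx => hr x hx g hg) f
    exact this
  let N : Submodule ℂ H :=
    { carrier := {g | InnerProductSpace.rankOne ℂ f g ∈ M}
      add_mem' := fun {a b} ha hb => by
        show InnerProductSpace.rankOne ℂ f (a + b) ∈ M
        rw [map_add]; exact M.add_mem ha hb
      zero_mem' := by
        show InnerProductSpace.rankOne ℂ f 0 ∈ M
        rw [map_zero]; exact M.zero_mem
      smul_mem' := fun c a ha => by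
        show InnerProductSpace.rankOne ℂ f (c • a) ∈ M
        rw [map_smulₛₗ]; exact M.smul_mem _ ha }
  exact step N (hM.preimage (InnerProductSpace.rankOne ℂ f).continuous) (fun x hx => h1 x hx f) g

theorem compact_mem (M : Submodule ℂ (H →L[ℂ] H)) (hM : IsClosed (M : Set (H →L[ℂ] H)))
    (hr : ∀ f g : H, InnerProductSpace.rankOne ℂ f g ∈ M) (K : H →L[ℂ] H)
    (hK : IsCompactOperator K) : K ∈ M := by
  rw [← SetLike.mem_coe, ← hM.closure_eq, Metric.mem_closure_iff]
  intro ε hε
  have htb : TotallyBounded (K '' Metric.closedBall 0 1) :=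
    (hK.isCompact_closure_image_closedBall 1).totallyBounded.subset subset_closure
  obtain ⟨t, htf, ht⟩ := Metric.totallyBounded_iff.1 htb (ε / 2) (by positivity)
  set V : Submodule ℂ H := Submodule.span ℂ t with hV
  have : FiniteDimensional ℂ V := FiniteDimensional.span_of_finite ℂ htf
  set b := stdOrthonormalBasis ℂ V with hb
  set R : H →L[ℂ] H := ∑ i, InnerProductSpace.rankOne ℂ ((b i : V) : H) (K.adjoint (b i : V)) with hR
  have hRM : R ∈ M := M.sum_mem fun i _ => hr _ _
  refine ⟨R, hRM, ?_⟩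
  have hRx : ∀ x, R x = V.starProjection (K x) := by
    intro x
    rw [b.starProjection_eq_sum_rankOne, hR, ContinuousLinearMap.sum_apply,
      ContinuousLinearMap.sum_apply]
    refine Finset.sum_congr rfl fun i _ => ?_
    rw [InnerProductSpace.rankOne_apply, InnerProductSpace.rankOne_apply,
      ContinuousLinearMap.adjoint_inner_left]
  rw [dist_eq_norm]
  refine lt_of_le_of_lt ?_ (half_lt_self hε)
  refine ContinuousLinearMap.opNorm_le_of_unit_norm (by positivity) ?_
  intro x hx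
  have h1 : K x ∈ K '' Metric.closedBall 0 1 := ⟨x, by simp [hx], rfl⟩
  obtain ⟨y, hy, hxy⟩ := mem_iUnion₂.1 (ht h1)
  rw [ContinuousLinearMap.sub_apply, hRx]
  have hyV : y ∈ V := Submodule.subset_span hy
  have h2 : V.starProjection y = y := Submodule.starProjection_eq_self_iff.2 hyV
  have h3 : ‖K x - V.starProjection (K x)‖ ≤ ‖K x - y‖ := by
    rw [Submodule.starProjection_minimal]
    exact ciInf_le ⟨0, by rintro _ ⟨w, rfl⟩; positivity⟩ (⟨y, hyV⟩ : V)
  refine h3.trans ?_
  rw [← dist_eq_norm]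
  exact (Metric.mem_ball.1 hxy).le

end Pool.Agent.Q192.SE
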