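import Mathlib

/-!
# A ping-pong estimate and a spectral gap on the two dimensional torus
-/

open MeasureTheory ENNReal

namespace Pool.Agent.Q192.SE

open scoped InnerProductSpace

/-- pointwise estimate -/
theorem point_bound {ι : Type*} (o : ι) (d : ℕ) (g : Fin d → Equiv.Perm ι) (A : Fin d → Set ι)
    (hA : ∀ i j, i ≠ j → Disjoint (A i) (A j))
    (hmap : ∀ i n, n ≠ o → n ∉ A i → g i n ∈ A i) (c : ι → ℂ) (hc : c o = 0) (n : ι) :
    ‖∑ i, c ((g i).symm n)‖ ^ 2 ≤ 2 * ∑ i, ‖c ((g i).symm n)‖ ^ 2 +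
      2 * d * ∑ i, (A i).indicator (fun m => ‖c m‖ ^ 2) ((g i).symm n) := by
  classical
  set x : Fin d → ℂ := fun i => c ((g i).symm n) with hx
  have h1 : ∑ i, x i = ∑ i ∈ Finset.univ.filter (fun i => n ∈ A i), x i +
      ∑ i ∈ Finset.univ.filter (fun i => ¬ n ∈ A i), x i :=
    (Finset.sum_filter_add_sum_filter_not _ _ _).symm
  have hcard : (Finset.univ.filter (fun i => n ∈ A i)).card ≤ 1 := by
    rw [Finset.card_le_one]
    intro i hi j hj
    by_contra hne
    simp only [Finset.mem_filter, Finset.mem_univ, true_and] at hi hj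
    exact Set.disjoint_left.1 (hA i j hne) hi hj
  have e1 : ‖∑ i ∈ Finset.univ.filter (fun i => n ∈ A i), x i‖ ^ 2 ≤ ∑ i, ‖x i‖ ^ 2 := by
    calc ‖∑ i ∈ Finset.univ.filter (fun i => n ∈ A i), x i‖ ^ 2
        ≤ (∑ i ∈ Finset.univ.filter (fun i => n ∈ A i), ‖x i‖) ^ 2 := by
          gcongr; exact norm_sum_le _ _
      _ ≤ (Finset.univ.filter (fun i => n ∈ A i)).card *
            ∑ i ∈ Finset.univ.filter (fun i => n ∈ A i), ‖x i‖ ^ 2 := sq_sum_le_card_mul_sum_sq
      _ ≤ 1 * ∑ i ∈ Finset.univ.filter (fun i => n ∈ A i), ‖x i‖ ^ 2 := by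
          gcongr; exact_mod_cast hcard
      _ ≤ ∑ i, ‖x i‖ ^ 2 := by
          rw [one_mul]
          exact Finset.sum_le_sum_of_subset_of_nonneg (Finset.filter_subset _ _)
            fun _ _ _ => by positivity
  have e2 : ‖∑ i ∈ Finset.univ.filter (fun i => ¬ n ∈ A i), x i‖ ^ 2 ≤
      d * ∑ i, (A i).indicator (fun m => ‖c m‖ ^ 2) ((g i).symm n) := by
    calc ‖∑ i ∈ Finset.univ.filter (fun i => ¬ n ∈ A i), x i‖ ^ 2
        ≤ (∑ i ∈ Finset.univ.filter (fun i => ¬ n ∈ A i), ‖x i‖) ^ 2 := by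
          gcongr; exact norm_sum_le _ _
      _ ≤ (Finset.univ.filter (fun i => ¬ n ∈ A i)).card *
            ∑ i ∈ Finset.univ.filter (fun i => ¬ n ∈ A i), ‖x i‖ ^ 2 := sq_sum_le_card_mul_sum_sq
      _ ≤ d * ∑ i ∈ Finset.univ.filter (fun i => ¬ n ∈ A i), ‖x i‖ ^ 2 := by
          gcongr
          exact (Finset.card_filter_le _ _).trans (by simp)
      _ ≤ d * ∑ i, (A i).indicator (fun m => ‖c m‖ ^ 2) ((g i).symm n) := by
          gcongr ?_ * ?_
          calc ∑ i ∈ Finset.univ.filter (fun i => ¬ n ∈ A i), ‖x i‖ ^ 2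
              ≤ ∑ i ∈ Finset.univ.filter (fun i => ¬ n ∈ A i),
                  (A i).indicator (fun m => ‖c m‖ ^ 2) ((g i).symm n) := by
                refine Finset.sum_le_sum fun i hi => ?_
                simp only [Finset.mem_filter, Finset.mem_univ, true_and] at hi
                by_cases h0 : (g i).symm n = o
                · simp only [hx, h0, hc, norm_zero]
                  rw [zero_pow two_ne_zero]
                  exact Set.indicator_nonneg (fun _ _ => by positivity) _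
                · have : (g i).symm n ∈ A i := by
                    by_contra hn
                    apply hi
                    have := hmap i _ h0 hn
                    rwa [Equiv.apply_symm_apply] at this
                  rw [Set.indicator_of_mem this]
            _ ≤ _ := Finset.sum_le_sum_of_subset_of_nonneg (Finset.filter_subset _ _)
                  fun _ _ _ => Set.indicator_nonneg (fun _ _ => by positivity) _
  have e3 : ‖∑ i, x i‖ ^ 2 ≤ 2 * ‖∑ i ∈ Finset.univ.filter (fun i => n ∈ A i), x i‖ ^ 2 +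
      2 * ‖∑ i ∈ Finset.univ.filter (fun i => ¬ n ∈ A i), x i‖ ^ 2 := by
    rw [h1]
    have := norm_add_le (∑ i ∈ Finset.univ.filter (fun i => n ∈ A i), x i)
      (∑ i ∈ Finset.univ.filter (fun i => ¬ n ∈ A i), x i)
    nlinarith [norm_nonneg (∑ i ∈ Finset.univ.filter (fun i => n ∈ A i), x i),
      norm_nonneg (∑ i ∈ Finset.univ.filter (fun i => ¬ n ∈ A i), x i),
      norm_nonneg (∑ i ∈ Finset.univ.filter (fun i => n ∈ A i), x i +
        ∑ i ∈ Finset.univ.filter (fun i => ¬ n ∈ A i), x i),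
      sq_nonneg (‖∑ i ∈ Finset.univ.filter (fun i => n ∈ A i), x i‖ -
        ‖∑ i ∈ Finset.univ.filter (fun i => ¬ n ∈ A i), x i‖)]
  calc ‖∑ i, x i‖ ^ 2 ≤ _ := e3
    _ ≤ 2 * ∑ i, ‖x i‖ ^ 2 + 2 * (d * ∑ i, (A i).indicator (fun m => ‖c m‖ ^ 2) ((g i).symm n)) := by
        gcongr
    _ = _ := by ring

theorem sum_bound {ι : Type*} (o : ι) (d : ℕ) (g : Fin d → Equiv.Perm ι) (A : Fin d → Set ι)
    (hA : ∀ i j, i ≠ j → Disjoint (A i) (A j))
    (hmap : ∀ i n, n ≠ o → n ∉ A i → g i n ∈ A i) (c : ι → ℂ) (hc : c o = 0) :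
    ∑' n, ENNReal.ofReal (‖∑ i, c ((g i).symm n)‖ ^ 2) ≤
      ENNReal.ofReal (4 * d) * ∑' n, ENNReal.ofReal (‖c n‖ ^ 2) := by
  classical
  set F : ι → ℝ≥0∞ := fun n => ENNReal.ofReal (‖c n‖ ^ 2) with hF
  have h1 : ∀ n, ENNReal.ofReal (‖∑ i, c ((g i).symm n)‖ ^ 2) ≤
      2 * ∑ i, F ((g i).symm n) + ENNReal.ofReal (2 * d) * ∑ i, (A i).indicator F ((g i).symm n) := by
    intro n
    refine (ENNReal.ofReal_le_ofReal (point_bound o d g A hA hmap c hc n)).trans ?_
    have hi : ∀ i, ENNReal.ofReal ((A i).indicator (fun m => ‖c m‖ ^ 2) ((g i).symm n)) =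
        (A i).indicator F ((g i).symm n) := by
      intro i
      by_cases h : (g i).symm n ∈ A i
      · rw [Set.indicator_of_mem h, Set.indicator_of_mem h]
      · rw [Set.indicator_of_notMem h, Set.indicator_of_notMem h, ENNReal.ofReal_zero]
    rw [ENNReal.ofReal_add (by positivity)
      (mul_nonneg (by positivity) (Finset.sum_nonneg fun _ _ =>
        Set.indicator_nonneg (fun _ _ => by positivity) _)),
      ENNReal.ofReal_mul (by norm_num), ENNReal.ofReal_mul (by positivity),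
      ENNReal.ofReal_sum_of_nonneg (fun _ _ => by positivity),
      ENNReal.ofReal_sum_of_nonneg (fun _ _ => Set.indicator_nonneg (fun _ _ => by positivity) _),
      Finset.sum_congr rfl fun i _ => hi i]
    norm_num [hF]
  have h2 : ∑' n, ∑ i, F ((g i).symm n) = d * ∑' n, F n := by
    rw [Summable.tsum_finsetSum (fun _ _ => ENNReal.summable)]
    rw [Finset.sum_congr rfl fun i _ => (g i).symm.tsum_eq F]
    simp
  have h3 : ∑' n, ∑ i, (A i).indicator F ((g i).symm n) ≤ ∑' n, F n := by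
    rw [Summable.tsum_finsetSum (fun _ _ => ENNReal.summable)]
    rw [Finset.sum_congr rfl fun i _ => (g i).symm.tsum_eq ((A i).indicator F)]
    rw [← Summable.tsum_finsetSum (fun _ _ => ENNReal.summable)]
    refine ENNReal.tsum_le_tsum fun n => ?_
    by_cases h : ∃ i, n ∈ A i
    · obtain ⟨i, hi⟩ := h
      rw [Finset.sum_eq_single i]
      · rw [Set.indicator_of_mem hi]
      · intro j _ hj
        exact Set.indicator_of_notMem (fun hjn => Set.disjoint_left.1 (hA j i hj) hjn hi) _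
      · intro h; exact absurd (Finset.mem_univ i) h
    · push Not at h
      rw [Finset.sum_eq_zero fun i _ => Set.indicator_of_notMem (h i) _]
      exact zero_le
  calc ∑' n, ENNReal.ofReal (‖∑ i, c ((g i).symm n)‖ ^ 2)
      ≤ ∑' n, (2 * ∑ i, F ((g i).symm n) +
          ENNReal.ofReal (2 * d) * ∑ i, (A i).indicator F ((g i).symm n)) := ENNReal.tsum_le_tsum h1
    _ = 2 * (d * ∑' n, F n) + ENNReal.ofReal (2 * d) *
          ∑' n, ∑ i, (A i).indicator F ((g i).symm n) := by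
        rw [ENNReal.tsum_add, ENNReal.tsum_mul_left, ENNReal.tsum_mul_left, h2]
    _ ≤ 2 * (d * ∑' n, F n) + ENNReal.ofReal (2 * d) * ∑' n, F n := by gcongr
    _ = ENNReal.ofReal (4 * d) * ∑' n, F n := by
        have e1 : ENNReal.ofReal (2 * (d : ℝ)) = 2 * d := by
          rw [ENNReal.ofReal_mul (by norm_num)]; simp
        have e2 : ENNReal.ofReal (4 * (d : ℝ)) = 4 * d := by
          rw [ENNReal.ofReal_mul (by norm_num)]; simp
        rw [e1, e2]; ring

variable {H : Type*} [NormedAddCommGroup H] [InnerProductSpace ℂ H] [CompleteSpace H]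

theorem parseval {ι : Type*} (b : HilbertBasis ι ℂ H) (f : H) :
    ∑' n, ENNReal.ofReal (‖⟪b n, f⟫_ℂ‖ ^ 2) = ENNReal.ofReal (‖f‖ ^ 2) := by
  have h := b.hasSum_inner_mul_inner f f
  have h1 : HasSum (fun i => ‖⟪b i, f⟫_ℂ‖ ^ 2) (‖f‖ ^ 2) := by
    have h2 := RCLike.hasSum_re ℂ h
    have e : RCLike.re ⟪f, f⟫_ℂ = ‖f‖ ^ 2 := by
      rw [← norm_sq_eq_re_inner (𝕜 := ℂ)]
    rw [e] at h2
    have e2 : (fun i => ‖⟪b i, f⟫_ℂ‖ ^ 2) = fun i => RCLike.re (⟪f, b i⟫_ℂ * ⟪b i, f⟫_ℂ) := by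
      funext i
      rw [← inner_conj_symm f (b i), RCLike.conj_mul]
      norm_cast
    rw [e2]
    exact h2
  rw [← h1.tsum_eq, ENNReal.ofReal_tsum_of_nonneg (fun _ => by positivity) h1.summable]

/-- the spectral gap for isometries permuting a Hilbert basis with a ping-pong configuration -/
theorem gap {ι : Type*} (b : HilbertBasis ι ℂ H) (o : ι) {d : ℕ} (hd : 0 < d)
    (g : Fin d → Equiv.Perm ι) (A : Fin d → Set ι) (hg : ∀ i, g i o = o)
    (hA : ∀ i j, i ≠ j → Disjoint (A i) (A j))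
    (hmap : ∀ i n, n ≠ o → n ∉ A i → g i n ∈ A i) (U : Fin d → (H →ₗᵢ[ℂ] H))
    (hU : ∀ i n, U i (b n) = b (g i n)) (f : H) :
    ‖(d : ℂ)⁻¹ • ∑ i, U i f - ⟪b o, f⟫_ℂ • b o‖ ^ 2 ≤ 4 / d * ‖f‖ ^ 2 := by
  have hd' : (0 : ℝ) < d := by exact_mod_cast hd
  set f' : H := f - ⟪b o, f⟫_ℂ • b o with hf'
  have hin : ⟪b o, f'⟫_ℂ = 0 := by
    rw [hf', inner_sub_right, inner_smul_right, inner_self_eq_norm_sq_to_K,
      b.orthonormal.1 o]
    simp
  have h1 : (d : ℂ)⁻¹ • ∑ i, U i f - ⟪b o, f⟫_ℂ • b o = (d : ℂ)⁻¹ • ∑ i, U i f' := by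
    have e : ∑ i, U i f' = ∑ i, U i f - (d : ℂ) • (⟪b o, f⟫_ℂ • b o) := by
      have : ∀ i, U i f' = U i f - ⟪b o, f⟫_ℂ • b o := by
        intro i
        rw [hf', map_sub, map_smul, hU, hg]
      simp only [this, Finset.sum_sub_distrib, Finset.sum_const, Finset.card_univ, Fintype.card_fin]
      rw [← Nat.cast_smul_eq_nsmul ℂ]
    rw [e, smul_sub, smul_smul, inv_mul_cancel₀ (by exact_mod_cast hd.ne'), one_smul]
  have h2 : ‖∑ i, U i f'‖ ^ 2 ≤ 4 * d * ‖f'‖ ^ 2 := by
    have hc : ∀ n, ⟪b n, ∑ i, U i f'⟫_ℂ = ∑ i, ⟪b ((g i).symm n), f'⟫_ℂ := by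
      intro n
      rw [inner_sum]
      refine Finset.sum_congr rfl fun i _ => ?_
      rw [← (U i).inner_map_map (b ((g i).symm n)) f', hU, Equiv.apply_symm_apply]
    have h3 := sum_bound o d g A hA hmap (fun n => ⟪b n, f'⟫_ℂ) hin
    simp only [← hc] at h3
    rw [parseval b, parseval b, ← ENNReal.ofReal_mul (by positivity)] at h3
    exact (ENNReal.ofReal_le_ofReal_iff (by positivity)).1 h3
  have h4 : ‖f'‖ ^ 2 ≤ ‖f‖ ^ 2 := by
    have e : f = f' + ⟪b o, f⟫_ℂ • b o := by rw [hf']; abel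
    have h5 : ‖f‖ ^ 2 = ‖f'‖ ^ 2 + ‖⟪b o, f⟫_ℂ • b o‖ ^ 2 := by
      conv_lhs => rw [e]
      have := norm_add_sq_eq_norm_sq_add_norm_sq_of_inner_eq_zero (𝕜 := ℂ) f' (⟪b o, f⟫_ℂ • b o)
        (by rw [inner_smul_right, ← inner_conj_symm f' (b o), hin]; simp)
      simpa only [sq] using this
    nlinarith [sq_nonneg ‖⟪b o, f⟫_ℂ • b o‖]
  rw [h1, norm_smul, mul_pow, norm_inv, Complex.norm_natCast]
  calc ((d : ℝ)⁻¹) ^ 2 * ‖∑ i, U i f'‖ ^ 2 ≤ ((d : ℝ)⁻¹) ^ 2 * (4 * d * ‖f‖ ^ 2) := by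
        gcongr
        exact h2.trans (by gcongr)
    _ = 4 / d * ‖f‖ ^ 2 := by field_simp

/-! ### the torus -/

noncomputable local instance : MeasureSpace UnitAddCircle := ⟨AddCircle.haarAddCircle⟩

local instance : Measure.IsAddHaarMeasure (volume : Measure UnitAddCircle) :=
  inferInstanceAs (Measure.IsAddHaarMeasure AddCircle.haarAddCircle)

local instance : IsProbabilityMeasure (volume : Measure UnitAddCircle) :=
  inferInstanceAs (IsProbabilityMeasure AddCircle.haarAddCircle)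

/-- the two dimensional torus -/
abbrev TT := UnitAddTorus (Fin 2)

/-- Haar measure of the torus -/
noncomputable def mT : Measure TT := volume

instance : IsProbabilityMeasure mT := inferInstanceAs (IsProbabilityMeasure (volume : Measure TT))

instance : Measure.IsAddHaarMeasure mT :=
  inferInstanceAs (Measure.IsAddHaarMeasure (volume : Measure TT))

/-- the automorphism `x ↦ (p x₀ + q x₁, r x₀ + s x₁)` of the torus -/
noncomputable def aut (p q r s : ℤ) (hdet : p * s - q * r = 1) : TT ≃+ TT where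
  toFun x := ![p • x 0 + q • x 1, r • x 0 + s • x 1]
  invFun x := ![s • x 0 - q • x 1, -r • x 0 + p • x 1]
  left_inv x := by
    funext i
    fin_cases i
    · simp only [Matrix.cons_val_zero, Matrix.cons_val_one, Fin.zero_eta]
      have : s • (p • x 0 + q • x 1) - q • (r • x 0 + s • x 1) = (p * s - q * r) • x 0 := by module
      rw [this, hdet, one_smul]
    · simp only [Matrix.cons_val_zero, Matrix.cons_val_one, Fin.mk_one]
      have : -r • (p • x 0 + q • x 1) + p • (r • x 0 + s • x 1) = (p * s - q * r) • x 1 := by module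
      rw [this, hdet, one_smul]
  right_inv x := by
    funext i
    fin_cases i
    · simp only [Matrix.cons_val_zero, Matrix.cons_val_one, Fin.zero_eta]
      have : p • (s • x 0 - q • x 1) + q • (-r • x 0 + p • x 1) = (p * s - q * r) • x 0 := by module
      rw [this, hdet, one_smul]
    · simp only [Matrix.cons_val_zero, Matrix.cons_val_one, Fin.mk_one]
      have : r • (s • x 0 - q • x 1) + s • (-r • x 0 + p • x 1) = (p * s - q * r) • x 1 := by module
      rw [this, hdet, one_smul]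
  map_add' x y := by
    funext i
    fin_cases i
    · show p • (x 0 + y 0) + q • (x 1 + y 1) = (p • x 0 + q • x 1) + (p • y 0 + q • y 1)
      module
    · show r • (x 0 + y 0) + s • (x 1 + y 1) = (r • x 0 + s • x 1) + (r • y 0 + s • y 1)
      module

theorem continuous_aut (p q r s : ℤ) (hdet : p * s - q * r = 1) : Continuous (aut p q r s hdet) := by
  refine continuous_pi fun i => ?_
  fin_cases i
  · show Continuous fun x : TT => p • x 0 + q • x 1
    fun_prop
  · show Continuous fun x : TT => r • x 0 + s • x 1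
    fun_prop

theorem continuous_aut_symm (p q r s : ℤ) (hdet : p * s - q * r = 1) :
    Continuous (aut p q r s hdet).symm := by
  refine continuous_pi fun i => ?_
  fin_cases i
  · show Continuous fun x : TT => s • x 0 - q • x 1
    fun_prop
  · show Continuous fun x : TT => -r • x 0 + p • x 1
    fun_prop

/-- as a measurable equivalence -/
noncomputable def autM (p q r s : ℤ) (hdet : p * s - q * r = 1) : TT ≃ᵐ TT where
  toEquiv := (aut p q r s hdet).toEquiv
  measurable_toFun := (continuous_aut p q r s hdet).measurable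
  measurable_invFun := (continuous_aut_symm p q r s hdet).measurable

theorem mp_aut (p q r s : ℤ) (hdet : p * s - q * r = 1) :
    MeasurePreserving (autM p q r s hdet) mT mT :=
  AddMonoidHom.measurePreserving (f := (aut p q r s hdet).toAddMonoidHom)
    (continuous_aut p q r s hdet) (aut p q r s hdet).surjective rfl

theorem mFourier_aut (p q r s : ℤ) (hdet : p * s - q * r = 1) (n : Fin 2 → ℤ) (x : TT) :
    UnitAddTorus.mFourier n (autM p q r s hdet x) =
      UnitAddTorus.mFourier ![p * n 0 + r * n 1, q * n 0 + s * n 1] x := by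
  have h1 : autM p q r s hdet x = ![p • x 0 + q • x 1, r • x 0 + s • x 1] := rfl
  rw [h1]
  simp only [UnitAddTorus.mFourier, ContinuousMap.coe_mk, Fin.prod_univ_two, Matrix.cons_val_zero,
    Matrix.cons_val_one, fourier_apply]
  rw [← Circle.coe_mul, ← Circle.coe_mul, ← AddCircle.toCircle_add, ← AddCircle.toCircle_add]
  congr 2
  module

/-- the ping-pong permutations of `ℤ²` -/
noncomputable def pp (i : ℤ) : Equiv.Perm (Fin 2 → ℤ) where
  toFun n := ![(1 + 9 * i) * n 0 + (-27 * i ^ 2) * n 1, 3 * n 0 + (1 - 9 * i) * n 1]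
  invFun n := ![(1 - 9 * i) * n 0 + (27 * i ^ 2) * n 1, -3 * n 0 + (1 + 9 * i) * n 1]
  left_inv n := by
    funext j
    fin_cases j
    · simp only [Matrix.cons_val_zero, Matrix.cons_val_one, Fin.zero_eta]; ring
    · simp only [Matrix.cons_val_zero, Matrix.cons_val_one, Fin.mk_one]; ring
  right_inv n := by
    funext j
    fin_cases j
    · simp only [Matrix.cons_val_zero, Matrix.cons_val_one, Fin.zero_eta]; ring
    · simp only [Matrix.cons_val_zero, Matrix.cons_val_one, Fin.mk_one]; ring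

/-- the ping-pong sets -/
def pA (i : ℤ) : Set (Fin 2 → ℤ) := {n | n 1 ≠ 0 ∧ |n 0 - 3 * i * n 1| ≤ |n 1|}

theorem pA_disjoint {i j : ℤ} (hij : i ≠ j) : Disjoint (pA i) (pA j) := by
  rw [Set.disjoint_left]
  rintro n ⟨h0, h1⟩ ⟨_, h2⟩
  have h3 : |3 * (i - j) * n 1| ≤ 2 * |n 1| := by
    have : 3 * (i - j) * n 1 = (n 0 - 3 * j * n 1) - (n 0 - 3 * i * n 1) := by ring
    rw [this]
    calc _ ≤ |n 0 - 3 * j * n 1| + |n 0 - 3 * i * n 1| := abs_sub _ _
      _ ≤ _ := by linarith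
  rw [abs_mul, abs_mul] at h3
  have h4 : 1 ≤ |i - j| := Int.one_le_abs (sub_ne_zero.2 hij)
  have h5 : 0 < |n 1| := abs_pos.2 h0
  have h6 : |(3 : ℤ)| = 3 := rfl
  rw [h6] at h3
  nlinarith

theorem pA_map (i : ℤ) (n : Fin 2 → ℤ) (h0 : n ≠ 0) (hn : n ∉ pA i) : pp i n ∈ pA i := by
  have key : |n 1| < |n 0 - 3 * i * n 1| := by
    by_contra h
    push Not at h
    apply hn
    refine ⟨fun h1 => h0 ?_, h⟩
    rw [h1] at h
    simp only [mul_zero, sub_zero, abs_zero, abs_nonpos_iff] at h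
    funext j
    fin_cases j
    · exact h
    · exact h1
  set u := n 0 - 3 * i * n 1 with hu
  have e1 : (pp i n) 1 = n 1 + 3 * u := by
    show 3 * n 0 + (1 - 9 * i) * n 1 = _
    rw [hu]; ring
  have e0 : (pp i n) 0 - 3 * i * (pp i n) 1 = u := by
    rw [e1]
    show (1 + 9 * i) * n 0 + (-27 * i ^ 2) * n 1 - _ = _
    rw [hu]; ring
  have h2 : |u| < |n 1 + 3 * u| := by
    have : |3 * u| ≤ |n 1 + 3 * u| + |n 1| := by
      calc |3 * u| = |(n 1 + 3 * u) - n 1| := by congr 1; ring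
        _ ≤ _ := abs_sub _ _
    rw [abs_mul] at this
    have h6 : |(3 : ℤ)| = 3 := rfl
    rw [h6] at this
    have := abs_nonneg u
    have := abs_nonneg (n 1)
    linarith
  refine ⟨?_, ?_⟩
  · rw [e1]
    intro h
    rw [h, abs_zero] at h2
    exact absurd (abs_nonneg u) (not_le.2 h2)
  · rw [e0, e1]; exact h2.le

/-- the constant function one on the torus -/
noncomputable def oneT : Lp ℂ 2 mT := UnitAddTorus.mFourierLp (d := Fin 2) 2 0

theorem coeFn_oneT : oneT =ᵐ[mT] fun _ => (1 : ℂ) := by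
  have := UnitAddTorus.coeFn_mFourierLp (d := Fin 2) 2 0
  rw [UnitAddTorus.mFourier_zero] at this
  exact this

/-- spectral gap -/
theorem torus_gap (d : ℕ) (hd : 0 < d) : ∃ (Φ : Fin d → (TT ≃ᵐ TT))
    (hΦ : ∀ i, MeasurePreserving (Φ i) mT mT), ∀ f : Lp ℂ 2 mT,
      ‖(d : ℂ)⁻¹ • ∑ i, Lp.compMeasurePreservingₗᵢ ℂ (Φ i) (hΦ i) f - ⟪oneT, f⟫_ℂ • oneT‖ ^ 2 ≤
        4 / d * ‖f‖ ^ 2 := by
  have hdet : ∀ i : Fin d, (1 + 9 * ((i : ℕ) : ℤ)) * (1 - 9 * ((i : ℕ) : ℤ)) -
      3 * (-27 * ((i : ℕ) : ℤ) ^ 2) = 1 := fun i => by ring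
  refine ⟨fun i => autM _ _ _ _ (hdet i), fun i => mp_aut _ _ _ _ (hdet i), fun f => ?_⟩
  have h := gap (UnitAddTorus.mFourierBasis (d := Fin 2)) 0 hd (fun i => pp ((i : ℕ) : ℤ))
    (fun i => pA ((i : ℕ) : ℤ)) ?_ ?_ ?_
    (fun i => Lp.compMeasurePreservingₗᵢ ℂ (autM _ _ _ _ (hdet i)) (mp_aut _ _ _ _ (hdet i))) ?_ f
  · rw [UnitAddTorus.coe_mFourierBasis] at h
    exact h
  · intro i
    funext j
    fin_cases j
    · show (1 + 9 * ((i : ℕ) : ℤ)) * 0 + (-27 * ((i : ℕ) : ℤ) ^ 2) * 0 = 0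
      ring
    · show 3 * 0 + (1 - 9 * ((i : ℕ) : ℤ)) * 0 = 0
      ring
  · intro i j hij
    refine pA_disjoint fun h => hij ?_
    exact Fin.ext (by exact_mod_cast h)
  · intro i n h0 hn
    exact pA_map _ n h0 hn
  · intro i n
    rw [UnitAddTorus.coe_mFourierBasis]
    refine Lp.ext ?_
    have e1 := Lp.coeFn_compMeasurePreserving (UnitAddTorus.mFourierLp (d := Fin 2) 2 n)
      (mp_aut _ _ _ _ (hdet i))
    have e2 := (mp_aut _ _ _ _ (hdet i)).quasiMeasurePreserving.ae_eq_comp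
      (UnitAddTorus.coeFn_mFourierLp (d := Fin 2) 2 n)
    have e3 := UnitAddTorus.coeFn_mFourierLp (d := Fin 2) 2 (pp ((i : ℕ) : ℤ) n)
    refine (e1.trans e2).trans (Filter.EventuallyEq.trans ?_ e3.symm)
    refine Filter.Eventually.of_forall fun x => ?_
    exact mFourier_aut _ _ _ _ (hdet i) n x

end Pool.Agent.Q192.SE
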