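import Pool.Agent.Q192.SE.Cdf
import Pool.Agent.Q192.SE.Gap

/-!
# Transfer operators and support expansion
-/

open MeasureTheory Set Filter Topology
open scoped InnerProductSpace NNReal ENNReal

namespace Pool.Agent.Q192.SE

/-- Lebesgue measure on the unit interval -/
noncomputable abbrev vI : Measure ℝ := volume.restrict (Icc (0 : ℝ) 1)

variable {X : Type*} [MeasurableSpace X] {μ : Measure X} {B : Set X} {φ : X → ℝ}

/-- support expansion at most `l`, for operators between different `L²` spaces -/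
def Ex {X Y : Type*} [MeasurableSpace X] [MeasurableSpace Y] (μ : Measure X) (ν : Measure Y)
    (l : ℝ≥0) (a : Lp ℂ 2 μ →L[ℂ] Lp ℂ 2 ν) : Prop :=
  (∀ ξ : Lp ℂ 2 μ, ν (Function.support (a ξ)) ≤ l * μ (Function.support ξ)) ∧
    ∀ η : Lp ℂ 2 ν, μ (Function.support (a.adjoint η)) ≤ l * ν (Function.support η)

section Ex

variable {Y Z : Type*} [MeasurableSpace Y] [MeasurableSpace Z] {ν : Measure Y} {ρ : Measure Z}

theorem Ex.adj {l : ℝ≥0} {a : Lp ℂ 2 μ →L[ℂ] Lp ℂ 2 ν} (h : Ex μ ν l a) : Ex ν μ l a.adjoint :=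
  ⟨h.2, fun η => by rw [ContinuousLinearMap.adjoint_adjoint]; exact h.1 η⟩

theorem Ex.comp {l k : ℝ≥0} {a : Lp ℂ 2 ν →L[ℂ] Lp ℂ 2 ρ} {b : Lp ℂ 2 μ →L[ℂ] Lp ℂ 2 ν}
    (ha : Ex ν ρ l a) (hb : Ex μ ν k b) : Ex μ ρ (l * k) (a ∘L b) := by
  constructor
  · intro ξ
    refine (ha.1 (b ξ)).trans ?_
    rw [ENNReal.coe_mul, mul_assoc]
    gcongr
    exact hb.1 ξ
  · intro η
    rw [ContinuousLinearMap.adjoint_comp]
    refine (hb.2 (a.adjoint η)).trans ?_
    rw [ENNReal.coe_mul, mul_comm (l : ℝ≥0∞), mul_assoc]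
    gcongr
    exact ha.2 η

theorem support_add_le (f g : Lp ℂ 2 μ) :
    μ (Function.support (f + g : Lp ℂ 2 μ)) ≤ μ (Function.support f) + μ (Function.support g) := by
  refine le_trans (measure_mono_ae ?_) (measure_union_le _ _)
  filter_upwards [Lp.coeFn_add f g] with x hx h
  have h1 : (f + g : Lp ℂ 2 μ) x ≠ 0 := h
  rw [hx, Pi.add_apply] at h1
  by_cases h2 : f x = 0
  · right
    show g x ≠ 0
    rw [h2, zero_add] at h1
    exact h1
  · left; exact h2

theorem support_smul_le (c : ℂ) (f : Lp ℂ 2 μ) :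
    μ (Function.support (c • f : Lp ℂ 2 μ)) ≤ μ (Function.support f) := by
  refine measure_mono_ae ?_
  filter_upwards [Lp.coeFn_smul c f] with x hx h
  have h1 : (c • f : Lp ℂ 2 μ) x ≠ 0 := h
  rw [hx, Pi.smul_apply, smul_eq_mul] at h1
  exact right_ne_zero_of_mul h1

theorem Ex.add {l k : ℝ≥0} {a b : Lp ℂ 2 μ →L[ℂ] Lp ℂ 2 ν}
    (ha : Ex μ ν l a) (hb : Ex μ ν k b) : Ex μ ν (l + k) (a + b) := by
  constructor
  · intro ξ
    rw [ENNReal.coe_add, add_mul]
    exact (support_add_le _ _).trans (add_le_add (ha.1 ξ) (hb.1 ξ))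
  · intro ξ
    rw [ENNReal.coe_add, add_mul, map_add]
    exact (support_add_le _ _).trans (add_le_add (ha.2 ξ) (hb.2 ξ))

theorem Ex.smul {l : ℝ≥0} {a : Lp ℂ 2 μ →L[ℂ] Lp ℂ 2 ν} (c : ℂ)
    (ha : Ex μ ν l a) : Ex μ ν l (c • a) := by
  constructor
  · intro ξ
    exact (support_smul_le _ _).trans (ha.1 ξ)
  · intro ξ
    rw [map_smulₛₗ]
    exact (support_smul_le _ _).trans (ha.2 ξ)

omit [MeasurableSpace X] in
theorem support_zero [MeasurableSpace X] (κ : Measure X) :
    κ (Function.support (0 : Lp ℂ 2 κ)) = 0 := by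
  have := Lp.coeFn_zero ℂ 2 κ
  refine measure_mono_null ?_ this
  intro x hx h
  exact hx h

theorem Ex.zero : Ex μ ν 0 (0 : Lp ℂ 2 μ →L[ℂ] Lp ℂ 2 ν) := by
  constructor
  · intro ξ
    exact (support_zero ν).le.trans zero_le
  · intro ξ
    rw [map_zero]
    exact (support_zero μ).le.trans zero_le

theorem Ex.sum {n : ℕ} {a : Fin n → (Lp ℂ 2 μ →L[ℂ] Lp ℂ 2 ν)}
    (ha : ∀ i, ∃ l, Ex μ ν l (a i)) : ∃ l, Ex μ ν l (∑ i, a i) := by
  induction n with
  | zero => exact ⟨0, by simpa using Ex.zero⟩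
  | succ n ih =>
    obtain ⟨l, hl⟩ := ih (a := fun i => a i.succ) fun i => ha i.succ
    obtain ⟨k, hk⟩ := ha 0
    refine ⟨k + l, ?_⟩
    rw [Fin.sum_univ_succ]
    exact hk.add hl

end Ex

/-! ### measure preserving equivalences -/

theorem ex_mp {Φ : X ≃ᵐ X} (hΦ : MeasurePreserving Φ μ μ) :
    Ex μ μ 1 (Lp.compMeasurePreservingₗᵢ ℂ (p := 2) (E := ℂ) Φ hΦ).toContinuousLinearMap := by
  have key : ∀ {Ψ : X ≃ᵐ X} (hΨ : MeasurePreserving Ψ μ μ) (f : Lp ℂ 2 μ),
      μ (Function.support (Lp.compMeasurePreserving Ψ hΨ f)) = μ (Function.support f) := by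
    intro Ψ hΨ f
    have h1 : Function.support (Lp.compMeasurePreserving Ψ hΨ f) =ᵐ[μ]
        Ψ ⁻¹' (Function.support f) := by
      filter_upwards [Lp.coeFn_compMeasurePreserving f hΨ] with x hx
      have : ((Lp.compMeasurePreserving Ψ hΨ f) x ≠ 0) = (f (Ψ x) ≠ 0) := by rw [hx]; rfl
      exact this
    rw [measure_congr h1, hΨ.measure_preimage
      (measurableSet_support (Lp.stronglyMeasurable f).measurable).nullMeasurableSet]
  constructor
  · intro ξ
    rw [ENNReal.coe_one, one_mul]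
    exact (key hΦ ξ).le
  · intro η
    rw [ENNReal.coe_one, one_mul]
    have hs : MeasurePreserving Φ.symm μ μ := hΦ.symm
    have h2 : Lp.compMeasurePreserving Φ hΦ (Lp.compMeasurePreserving Φ.symm hs η) = η := by
      refine Lp.ext ?_
      have e1 := Lp.coeFn_compMeasurePreserving (Lp.compMeasurePreserving Φ.symm hs η) hΦ
      have e2 := hΦ.quasiMeasurePreserving.ae_eq_comp (Lp.coeFn_compMeasurePreserving η hs)
      refine (e1.trans e2).trans ?_
      refine Eventually.of_forall fun x => ?_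
      simp
    have h3 : (Lp.compMeasurePreservingₗᵢ ℂ (p := 2) (E := ℂ) Φ hΦ).toContinuousLinearMap.adjoint η
        = Lp.compMeasurePreserving Φ.symm hs η := by
      refine ext_inner_left ℂ fun v => ?_
      rw [ContinuousLinearMap.adjoint_inner_right]
      conv_lhs => rw [← h2]
      exact (Lp.compMeasurePreservingₗᵢ ℂ (p := 2) (E := ℂ) Φ hΦ).inner_map_map v _
    rw [h3]
    exact (key hs η).le

/-! ### the embedding attached to a nice map -/

theorem Nice.qmp (h : Nice μ B φ) : Measure.QuasiMeasurePreserving φ (μ.restrict B) vI :=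
  ⟨h.meas, by rw [h.map]; exact Measure.smul_absolutelyContinuous⟩

theorem Nice.memLp (h : Nice μ B φ) (hB : MeasurableSet B) (hfin : μ B ≠ ⊤) (f : Lp ℂ 2 vI) :
    MemLp (B.indicator (f ∘ φ)) 2 μ := by
  rw [memLp_indicator_iff_restrict hB]
  have h1 : MemLp f 2 ((μ.restrict B).map φ) := by
    rw [h.map]; exact (Lp.memLp f).smul_measure hfin
  exact (memLp_map_measure_iff h1.1 h.meas.aemeasurable).1 h1

/-- the embedding on functions -/
noncomputable def Nice.j0 (h : Nice μ B φ) (hB : MeasurableSet B) (hfin : μ B ≠ ⊤)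
    (f : Lp ℂ 2 vI) : Lp ℂ 2 μ := (h.memLp hB hfin f).toLp _

theorem Nice.coeFn_j0 (h : Nice μ B φ) (hB : MeasurableSet B) (hfin : μ B ≠ ⊤)
    (f : Lp ℂ 2 vI) : h.j0 hB hfin f =ᵐ[μ] B.indicator (f ∘ φ) := MemLp.coeFn_toLp _

theorem Nice.ind_congr (h : Nice μ B φ) (hB : MeasurableSet B) {f g : ℝ → ℂ} (hfg : f =ᵐ[vI] g) :
    B.indicator (f ∘ φ) =ᵐ[μ] B.indicator (g ∘ φ) :=
  (ae_eq_restrict_iff_indicator_ae_eq hB).1 (h.qmp.ae_eq_comp hfg)

theorem Nice.inner_j0 (h : Nice μ B φ) (hB : MeasurableSet B) (hfin : μ B ≠ ⊤)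
    (f g : Lp ℂ 2 vI) :
    ⟪h.j0 hB hfin f, h.j0 hB hfin g⟫_ℂ = ((μ B).toReal : ℂ) * ⟪f, g⟫_ℂ := by
  rw [L2.inner_def, L2.inner_def]
  have e1 : ∫ x, ⟪h.j0 hB hfin f x, h.j0 hB hfin g x⟫_ℂ ∂μ =
      ∫ x, B.indicator ((fun y => ⟪f y, g y⟫_ℂ) ∘ φ) x ∂μ := by
    refine integral_congr_ae ?_
    filter_upwards [h.coeFn_j0 hB hfin f, h.coeFn_j0 hB hfin g] with x h1 h2
    rw [h1, h2]
    by_cases hx : x ∈ B
    · simp [indicator_of_mem hx]
    · simp [indicator_of_notMem hx]
  rw [e1, integral_indicator hB]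
  have hm : AEStronglyMeasurable (fun y => ⟪f y, g y⟫_ℂ) ((μ.restrict B).map φ) :=
    ((Lp.stronglyMeasurable f).inner (Lp.stronglyMeasurable g)).aestronglyMeasurable
  have e2 := integral_map h.meas.aemeasurable hm
  rw [Function.comp_def, ← e2, h.map, integral_smul_measure]
  simp

/-- the embedding -/
noncomputable def Nice.J (h : Nice μ B φ) (hB : MeasurableSet B) (hfin : μ B ≠ ⊤) :
    Lp ℂ 2 vI →L[ℂ] Lp ℂ 2 μ :=
  LinearMap.mkContinuous
    { toFun := h.j0 hB hfin
      map_add' := fun f g => by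
        refine Lp.ext ?_
        refine (h.coeFn_j0 hB hfin _).trans ((h.ind_congr hB (Lp.coeFn_add f g)).trans ?_)
        refine EventuallyEq.trans ?_ (Lp.coeFn_add _ _).symm
        filter_upwards [h.coeFn_j0 hB hfin f, h.coeFn_j0 hB hfin g] with x h1 h2
        rw [Pi.add_apply, h1, h2]
        by_cases hx : x ∈ B
        · simp [indicator_of_mem hx]
        · simp [indicator_of_notMem hx]
      map_smul' := fun c f => by
        refine Lp.ext ?_
        refine (h.coeFn_j0 hB hfin _).trans ((h.ind_congr hB (Lp.coeFn_smul c f)).trans ?_)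
        refine EventuallyEq.trans ?_ (Lp.coeFn_smul _ _).symm
        filter_upwards [h.coeFn_j0 hB hfin f] with x h1
        rw [Pi.smul_apply, RingHom.id_apply, h1]
        by_cases hx : x ∈ B
        · simp [indicator_of_mem hx]
        · simp [indicator_of_notMem hx] }
    (Real.sqrt (μ B).toReal) (by
      intro f
      have h1 : ‖h.j0 hB hfin f‖ ^ 2 = (μ B).toReal * ‖f‖ ^ 2 := by
        have e0 := h.inner_j0 hB hfin f f
        have e1 := norm_sq_eq_re_inner (𝕜 := ℂ) (h.j0 hB hfin f)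
        have e2 := norm_sq_eq_re_inner (𝕜 := ℂ) f
        rw [e1, e2, e0]
        exact Complex.re_ofReal_mul _ _
      show ‖h.j0 hB hfin f‖ ≤ _
      refine abs_le_of_sq_le_sq' ?_ (by positivity) |>.2
      rw [h1, mul_pow, Real.sq_sqrt ENNReal.toReal_nonneg])

theorem Nice.coeFn_J (h : Nice μ B φ) (hB : MeasurableSet B) (hfin : μ B ≠ ⊤)
    (f : Lp ℂ 2 vI) : h.J hB hfin f =ᵐ[μ] B.indicator (f ∘ φ) := h.coeFn_j0 hB hfin f

theorem Nice.inner_J (h : Nice μ B φ) (hB : MeasurableSet B) (hfin : μ B ≠ ⊤)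
    (f g : Lp ℂ 2 vI) :
    ⟪h.J hB hfin f, h.J hB hfin g⟫_ℂ = ((μ B).toReal : ℂ) * ⟪f, g⟫_ℂ := h.inner_j0 hB hfin f g

theorem Nice.adj_J (h : Nice μ B φ) (hB : MeasurableSet B) (hfin : μ B ≠ ⊤)
    (g : Lp ℂ 2 vI) :
    (h.J hB hfin).adjoint (h.J hB hfin g) = ((μ B).toReal : ℂ) • g := by
  refine ext_inner_left ℂ fun v => ?_
  rw [ContinuousLinearMap.adjoint_inner_right, h.inner_J, inner_smul_right]

theorem Nice.support_J (h : Nice μ B φ) (hB : MeasurableSet B) (hfin : μ B ≠ ⊤)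
    (f : Lp ℂ 2 vI) :
    μ (Function.support (h.J hB hfin f)) = μ B * vI (Function.support f) := by
  have hm : MeasurableSet (Function.support f) :=
    measurableSet_support (Lp.stronglyMeasurable f).measurable
  have h1 : Function.support (h.J hB hfin f) =ᵐ[μ] (φ ⁻¹' (Function.support f) ∩ B : Set X) := by
    filter_upwards [h.coeFn_J hB hfin f] with x hx
    have : (h.J hB hfin f x ≠ 0) = (f (φ x) ≠ 0 ∧ x ∈ B) := by
      rw [hx]
      by_cases hxB : x ∈ B
      · simp [indicator_of_mem hxB, hxB]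
      · simp [indicator_of_notMem hxB, hxB]
    exact this
  rw [measure_congr h1, ← Measure.restrict_apply (h.meas hm), ← Measure.map_apply h.meas hm, h.map,
    Measure.smul_apply, smul_eq_mul]

theorem Nice.J_ind (h : Nice μ B φ) (hB : MeasurableSet B) (hfin : μ B ≠ ⊤)
    {T : Set ℝ} (hT : MeasurableSet T) {S : Set X} (hS : MeasurableSet S)
    (hST : (φ ⁻¹' T ∩ B : Set X) =ᵐ[μ] (S ∩ B : Set X)) :
    h.J hB hfin (indicatorConstLp 2 hT (measure_ne_top vI T) (1 : ℂ)) =
      indicatorConstLp 2 (hS.inter hB) (measure_inter_ne_top_of_right_ne_top hfin) (1 : ℂ) := by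
  refine Lp.ext ?_
  refine (h.coeFn_J hB hfin _).trans ((h.ind_congr hB indicatorConstLp_coeFn).trans ?_)
  refine EventuallyEq.trans ?_ indicatorConstLp_coeFn.symm
  filter_upwards [hST] with x hx
  have hx' : (x ∈ φ ⁻¹' T ∩ B) = (x ∈ S ∩ B) := hx
  by_cases h1 : x ∈ S ∩ B
  · have h2 : x ∈ φ ⁻¹' T ∩ B := by rw [hx']; exact h1
    rw [indicator_of_mem h1, indicator_of_mem h2.2, Function.comp_apply,
      indicator_of_mem (show φ x ∈ T from h2.1)]
  · have h2 : x ∉ φ ⁻¹' T ∩ B := by rw [hx']; exact h1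
    rw [indicator_of_notMem h1]
    by_cases h3 : x ∈ B
    · rw [indicator_of_mem h3, Function.comp_apply, indicator_of_notMem]
      exact fun h4 => h2 ⟨h4, h3⟩
    · rw [indicator_of_notMem h3]

/-- `J J†` is the restriction to `B` up to a factor -/
theorem Nice.J_adj (h : Nice μ B φ) (hB : MeasurableSet B) (hfin : μ B ≠ ⊤) (η : Lp ℂ 2 μ) :
    h.J hB hfin ((h.J hB hfin).adjoint η) =ᵐ[μ] fun x => (μ B).toReal * B.indicator η x := by
  have hχm : MemLp (B.indicator η) 2 μ := (Lp.memLp η).indicator hB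
  set χ : Lp ℂ 2 μ := hχm.toLp _ with hχ
  have hχe : χ =ᵐ[μ] B.indicator η := hχm.coeFn_toLp
  set r : Lp ℂ 2 μ := h.J hB hfin ((h.J hB hfin).adjoint η) - ((μ B).toReal : ℂ) • χ with hr
  have hre : r =ᵐ[μ] fun x => h.J hB hfin ((h.J hB hfin).adjoint η) x -
      (μ B).toReal * B.indicator η x := by
    refine (Lp.coeFn_sub _ _).trans ?_
    filter_upwards [Lp.coeFn_smul ((μ B).toReal : ℂ) χ, hχe] with x h1 h2
    rw [Pi.sub_apply, h1, Pi.smul_apply, h2, smul_eq_mul]
  have horth : ∀ f : Lp ℂ 2 vI, ⟪h.J hB hfin f, r⟫_ℂ = 0 := by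
    intro f
    have e1 : ⟪h.J hB hfin f, χ⟫_ℂ = ⟪h.J hB hfin f, η⟫_ℂ := by
      rw [L2.inner_def, L2.inner_def]
      refine integral_congr_ae ?_
      filter_upwards [h.coeFn_J hB hfin f, hχe] with x h1 h2
      rw [h1, h2]
      by_cases hx : x ∈ B
      · simp [indicator_of_mem hx]
      · simp [indicator_of_notMem hx]
    rw [hr, inner_sub_right, h.inner_J, inner_smul_right, e1,
      ContinuousLinearMap.adjoint_inner_right, sub_self]
  have hr0 : r =ᵐ[μ] 0 := by
    refine Lp.ae_eq_zero_of_forall_setIntegral_eq_zero r (by norm_num) (by norm_num)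
      (fun s hs hμs => integrableOn_Lp_of_measure_ne_top r (by norm_num) hμs.ne) ?_
    intro S hS hμS
    obtain ⟨T, hT, hST⟩ := h.gen S hS
    have e1 : ∫ x in S, r x ∂μ = ∫ x in S ∩ B, r x ∂μ := by
      rw [← integral_indicator hS, ← integral_indicator (hS.inter hB)]
      refine integral_congr_ae ?_
      filter_upwards [hre, h.coeFn_J hB hfin ((h.J hB hfin).adjoint η)] with x h1 h2
      by_cases hx : x ∈ S ∩ B
      · rw [indicator_of_mem hx, indicator_of_mem hx.1]
      · rw [indicator_of_notMem hx]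
        by_cases hxS : x ∈ S
        · have hxB : x ∉ B := fun hb => hx ⟨hxS, hb⟩
          rw [indicator_of_mem hxS, h1, h2, indicator_of_notMem hxB, indicator_of_notMem hxB]
          simp
        · rw [indicator_of_notMem hxS]
    rw [e1, ← L2.inner_indicatorConstLp_one (hS.inter hB)
      (measure_inter_ne_top_of_right_ne_top hfin), ← h.J_ind hB hfin hT hS hST]
    exact horth _
  filter_upwards [hre, hr0] with x h1 h2
  rw [h1] at h2
  exact sub_eq_zero.1 h2

theorem Nice.ex_J (h : Nice μ B φ) (hB : MeasurableSet B) (h0 : μ B ≠ 0) (hfin : μ B ≠ ⊤) :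
    ∃ l, Ex vI μ l (h.J hB hfin) := by
  refine ⟨(μ B).toNNReal + ((μ B).toNNReal)⁻¹, ?_, ?_⟩
  · intro ξ
    rw [h.support_J, ENNReal.coe_add, ENNReal.coe_toNNReal hfin]
    gcongr
    exact le_self_add
  · intro η
    have h1 := h.support_J hB hfin ((h.J hB hfin).adjoint η)
    have h2 : μ (Function.support (h.J hB hfin ((h.J hB hfin).adjoint η))) ≤
        μ (Function.support η) := by
      refine measure_mono_ae ?_
      filter_upwards [h.J_adj hB hfin η] with x hx h3
      have h4 : h.J hB hfin ((h.J hB hfin).adjoint η) x ≠ 0 := h3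
      rw [hx] at h4
      have h5 := right_ne_zero_of_mul h4
      show η x ≠ 0
      intro h6
      apply h5
      by_cases hxB : x ∈ B
      · rw [indicator_of_mem hxB, h6]
      · rw [indicator_of_notMem hxB]
    have hc : (((μ B).toNNReal)⁻¹ : ℝ≥0) = ((μ B)⁻¹ : ℝ≥0∞) := by
      rw [ENNReal.coe_inv (by rw [Ne, ENNReal.toNNReal_eq_zero_iff]; tauto),
        ENNReal.coe_toNNReal hfin]
    calc vI (Function.support ((h.J hB hfin).adjoint η))
        = (μ B)⁻¹ * (μ B * vI (Function.support ((h.J hB hfin).adjoint η))) := by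
          rw [← mul_assoc, ENNReal.inv_mul_cancel h0 hfin, one_mul]
      _ ≤ (μ B)⁻¹ * μ (Function.support η) := by
          rw [← h1]; gcongr
      _ ≤ _ := by
          rw [ENNReal.coe_add, hc]
          gcongr
          exact le_add_self

end Pool.Agent.Q192.SE
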