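import Pool.Agent.Q192.SE.Atoms

/-!
# Mixed spaces: a compact operator outside the support expansion algebra
-/

open MeasureTheory Set Filter Topology
open scoped InnerProductSpace NNReal ENNReal

namespace Pool.Agent.Q192.SE

variable {X : Type*} [MeasurableSpace X] {μ : Measure X} {A B : Set X} {φ : X → ℝ}

/-- the indicator function of a set of the unit interval -/
noncomputable def oI (T : Set ℝ) (hT : MeasurableSet T) : Lp ℂ 2 vI :=
  indicatorConstLp 2 hT (measure_ne_top vI T) (1 : ℂ)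

theorem oI_add {s t : ℝ} (hs : 0 ≤ s) (hst : s ≤ t) :
    oI (Ioc 0 t) measurableSet_Ioc = oI (Ioc 0 s) measurableSet_Ioc +
      oI (Ioc s t) measurableSet_Ioc := by
  refine Lp.ext ?_
  refine indicatorConstLp_coeFn.trans (EventuallyEq.trans ?_ (Lp.coeFn_add _ _).symm)
  filter_upwards [indicatorConstLp_coeFn (p := 2) (μ := vI) (hs := (measurableSet_Ioc :
      MeasurableSet (Ioc 0 s))) (hμs := measure_ne_top vI _) (c := (1 : ℂ)),
    indicatorConstLp_coeFn (p := 2) (μ := vI) (hs := (measurableSet_Ioc :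
      MeasurableSet (Ioc s t))) (hμs := measure_ne_top vI _) (c := (1 : ℂ))] with x h1 h2
  rw [Pi.add_apply]
  show _ = indicatorConstLp 2 measurableSet_Ioc _ (1 : ℂ) x +
    indicatorConstLp 2 measurableSet_Ioc _ (1 : ℂ) x
  rw [h1, h2]
  by_cases hx1 : x ∈ Ioc 0 s
  · have hx2 : x ∉ Ioc s t := fun h => absurd hx1.2 (not_le.2 h.1)
    have hx3 : x ∈ Ioc 0 t := ⟨hx1.1, hx1.2.trans hst⟩
    rw [indicator_of_mem hx1, indicator_of_notMem hx2, indicator_of_mem hx3, add_zero]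
  · by_cases hx2 : x ∈ Ioc s t
    · have hx3 : x ∈ Ioc 0 t := ⟨hs.trans_lt hx2.1, hx2.2⟩
      rw [indicator_of_notMem hx1, indicator_of_mem hx2, indicator_of_mem hx3, zero_add]
    · have hx3 : x ∉ Ioc 0 t := by
        intro h
        by_cases h4 : x ≤ s
        · exact hx1 ⟨h.1, h4⟩
        · exact hx2 ⟨not_le.1 h4, h.2⟩
      rw [indicator_of_notMem hx1, indicator_of_notMem hx2, indicator_of_notMem hx3, add_zero]

/-- an operator of finite support expansion does not map from an atomless set to an atom -/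
theorem ex_zero {l : ℝ≥0} {a : Lp ℂ 2 μ →L[ℂ] Lp ℂ 2 μ} (ha : Ex μ μ l a) (hA : Atom μ A)
    (hφ : Nice μ B φ) (hB : MeasurableSet B) (hBf : μ B ≠ ⊤) :
    ⟪ind μ hA.1 hA.2.2.1, a (ind μ hB hBf)⟫_ℂ = 0 := by
  -- small pieces are mapped to zero
  have small : ∀ f : Lp ℂ 2 vI, l * (μ B * vI (Function.support f)) < μ A →
      ⟪ind μ hA.1 hA.2.2.1, a (hφ.J hB hBf f)⟫_ℂ = 0 := by
    intro f hf
    set η := a (hφ.J hB hBf f) with hη
    have hm : MeasurableSet (Function.support η) :=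
      measurableSet_support (Lp.stronglyMeasurable η).measurable
    have h1 : μ (Function.support η) < μ A := by
      refine lt_of_le_of_lt (ha.1 _) ?_
      rw [hφ.support_J]
      exact hf
    rcases hA.2.2.2 (A ∩ Function.support η) inter_subset_left (hA.1.inter hm) with h2 | h2
    · rw [inner_ind]
      refine setIntegral_eq_zero_of_ae_eq_zero ?_
      rw [ae_iff]
      refine measure_mono_null ?_ h2
      intro x hx
      simp only [mem_setOf_eq, Classical.not_imp] at hx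
      exact ⟨hx.1, hx.2⟩
    · exfalso
      have : μ A ≤ μ (Function.support η) := by
        calc μ A ≤ μ (A \ (A ∩ Function.support η)) + μ (Function.support η) := by
              refine le_trans (measure_mono ?_) (measure_union_le _ _)
              intro x hx
              by_cases h3 : x ∈ Function.support η
              · right; exact h3
              · left; exact ⟨hx, fun h4 => h3 h4.2⟩
          _ = μ (Function.support η) := by rw [h2, zero_add]
      exact absurd h1 (not_lt.2 this)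
  -- a small step
  obtain ⟨n, hn⟩ : ∃ n : ℕ, (l : ℝ≥0∞) * (μ B * ENNReal.ofReal (1 / ((n : ℝ) + 1))) < μ A := by
    have h1 : Tendsto (fun n : ℕ => (l : ℝ≥0∞) * (μ B * ENNReal.ofReal (1 / ((n : ℝ) + 1)))) atTop
        (𝓝 ((l : ℝ≥0∞) * (μ B * ENNReal.ofReal 0))) := by
      have h2 : Tendsto (fun n : ℕ => 1 / ((n : ℝ) + 1)) atTop (𝓝 0) :=
        tendsto_one_div_add_atTop_nhds_zero_nat
      exact ENNReal.Tendsto.const_mul (ENNReal.Tendsto.const_mul (ENNReal.tendsto_ofReal h2)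
        (Or.inr hBf)) (Or.inr ENNReal.coe_ne_top)
    rw [ENNReal.ofReal_zero, mul_zero, mul_zero] at h1
    exact (h1.eventually (gt_mem_nhds (pos_iff_ne_zero.2 hA.2.1))).exists
  have hn1 : (0 : ℝ) < (n : ℝ) + 1 := by positivity
  set G : ℝ → ℂ := fun t => ⟪ind μ hA.1 hA.2.2.1, a (hφ.J hB hBf (oI (Ioc 0 t)
    measurableSet_Ioc))⟫_ℂ with hG
  have hstep : ∀ k : ℕ, G (k / ((n : ℝ) + 1)) = 0 := by
    intro k
    induction k with
    | zero =>
      rw [hG]
      refine small _ ?_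
      have : vI (Function.support (oI (Ioc 0 (((0 : ℕ) : ℝ) / ((n : ℝ) + 1))) measurableSet_Ioc))
          = 0 := by
        have h2 : oI (Ioc 0 (((0 : ℕ) : ℝ) / ((n : ℝ) + 1))) measurableSet_Ioc = 0 := by
          refine Lp.ext (indicatorConstLp_coeFn.trans (EventuallyEq.trans ?_
            (Lp.coeFn_zero ℂ 2 vI).symm))
          refine Eventually.of_forall fun x => ?_
          have : Ioc (0 : ℝ) (((0 : ℕ) : ℝ) / ((n : ℝ) + 1)) = ∅ := by simp
          rw [this]; simp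
        rw [h2, support_zero]
      rw [this, mul_zero, mul_zero]
      exact pos_iff_ne_zero.2 hA.2.1
    | succ k ih =>
      have h1 := oI_add (s := (k : ℝ) / ((n : ℝ) + 1)) (t := ((k + 1 : ℕ) : ℝ) / ((n : ℝ) + 1))
        (by positivity) (by gcongr; linarith)
      have h2 : G (((k + 1 : ℕ) : ℝ) / ((n : ℝ) + 1)) = G ((k : ℝ) / ((n : ℝ) + 1)) +
          ⟪ind μ hA.1 hA.2.2.1, a (hφ.J hB hBf (oI (Ioc ((k : ℝ) / ((n : ℝ) + 1))
            (((k + 1 : ℕ) : ℝ) / ((n : ℝ) + 1))) measurableSet_Ioc))⟫_ℂ := by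
        rw [hG]
        simp only
        rw [h1, map_add, map_add, inner_add_right]
      rw [h2, ih, zero_add]
      refine small _ (lt_of_le_of_lt ?_ hn)
      gcongr
      have h3 : vI (Function.support (oI (Ioc ((k : ℝ) / ((n : ℝ) + 1))
          (((k + 1 : ℕ) : ℝ) / ((n : ℝ) + 1))) measurableSet_Ioc)) ≤
          vI (Ioc ((k : ℝ) / ((n : ℝ) + 1)) (((k + 1 : ℕ) : ℝ) / ((n : ℝ) + 1))) :=
        support_ind measurableSet_Ioc (measure_ne_top vI _)
      refine h3.trans ((Measure.restrict_apply_le _ _).trans ?_)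
      rw [Real.volume_Ioc]
      refine ENNReal.ofReal_le_ofReal (le_of_eq ?_)
      push_cast
      field_simp
      ring
  have h1 : G 1 = 0 := by
    have := hstep (n + 1)
    push_cast at this
    rwa [div_self hn1.ne'] at this
  have h2 : hφ.J hB hBf (oI (Ioc 0 1) measurableSet_Ioc) = ind μ hB hBf := by
    have e1 : oI (Ioc 0 1) measurableSet_Ioc = oI univ MeasurableSet.univ := by
      refine Lp.ext (indicatorConstLp_coeFn.trans (EventuallyEq.trans ?_
        indicatorConstLp_coeFn.symm))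
      have h3 : ∀ᵐ x ∂vI, x ∈ Icc (0 : ℝ) 1 := ae_restrict_mem measurableSet_Icc
      have h4 : ∀ᵐ x ∂vI, x ≠ 0 := by
        rw [ae_iff]
        simp
      filter_upwards [h3, h4] with x hx hx0
      have : x ∈ Ioc (0 : ℝ) 1 := ⟨lt_of_le_of_ne hx.1 (Ne.symm hx0), hx.2⟩
      rw [indicator_of_mem this, indicator_of_mem (mem_univ x)]
    rw [e1]
    have e3 := hφ.J_ind hB hBf MeasurableSet.univ (S := univ) MeasurableSet.univ (by rfl)
    refine e3.trans ?_
    refine Lp.ext (indicatorConstLp_coeFn.trans (EventuallyEq.trans ?_ indicatorConstLp_coeFn.symm))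
    simp
  rw [← h2]
  exact h1

/-- the rank one operator from an atomless set to an atom is not in the algebra -/
theorem rank_mixed (hA : Atom μ A) (hφ : Nice μ B φ) (hB : MeasurableSet B) (hB0 : μ B ≠ 0)
    (hBf : μ B ≠ ⊤) :
    InnerProductSpace.rankOne ℂ (ind μ hA.1 hA.2.2.1) (ind μ hB hBf) ∉ Cu μ := by
  intro hmem
  set u := ind μ hA.1 hA.2.2.1 with hu
  set v := ind μ hB hBf with hv
  have hu0 : u ≠ 0 := ind_ne_zero _ _ hA.2.1
  have hv0 : v ≠ 0 := ind_ne_zero _ _ hB0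
  have hpos : 0 < ‖u‖ * ‖v‖ := mul_pos (norm_pos_iff.2 hu0) (norm_pos_iff.2 hv0)
  have hmem2 : InnerProductSpace.rankOne ℂ u v ∈
      closure ((FE μ : Submodule ℂ (Lp ℂ 2 μ →L[ℂ] Lp ℂ 2 μ)) : Set _) := hmem
  obtain ⟨a, ⟨l, hl⟩, hda⟩ := Metric.mem_closure_iff.1 hmem2 (‖u‖ * ‖v‖) hpos
  have h0 := ex_zero hl hA hφ hB hBf
  have h1 : ⟪u, (InnerProductSpace.rankOne ℂ u v - a) v⟫_ℂ = ((‖u‖ * ‖v‖ : ℝ) : ℂ) ^ 2 := by
    rw [ContinuousLinearMap.sub_apply, inner_sub_right, h0, sub_zero,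
      InnerProductSpace.rankOne_apply, inner_smul_right, inner_self_eq_norm_sq_to_K,
      inner_self_eq_norm_sq_to_K]
    push_cast
    exact (by
      show ((‖v‖ : ℝ) : ℂ) ^ 2 * ((‖u‖ : ℝ) : ℂ) ^ 2 = _
      ring)
  have h2 : (‖u‖ * ‖v‖) ^ 2 ≤ ‖u‖ * (‖InnerProductSpace.rankOne ℂ u v - a‖ * ‖v‖) := by
    calc (‖u‖ * ‖v‖) ^ 2 = ‖⟪u, (InnerProductSpace.rankOne ℂ u v - a) v⟫_ℂ‖ := by
          rw [h1, norm_pow, Complex.norm_real, Real.norm_of_nonneg hpos.le]
      _ ≤ ‖u‖ * ‖(InnerProductSpace.rankOne ℂ u v - a) v‖ := norm_inner_le_norm _ _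
      _ ≤ _ := by gcongr; exact ContinuousLinearMap.le_opNorm _ _
  rw [dist_eq_norm] at hda
  have h3 : ‖u‖ * (‖InnerProductSpace.rankOne ℂ u v - a‖ * ‖v‖) < (‖u‖ * ‖v‖) ^ 2 := by
    calc ‖u‖ * (‖InnerProductSpace.rankOne ℂ u v - a‖ * ‖v‖)
        = (‖u‖ * ‖v‖) * ‖InnerProductSpace.rankOne ℂ u v - a‖ := by ring
      _ < (‖u‖ * ‖v‖) * (‖u‖ * ‖v‖) := by gcongr
      _ = _ := by ring
  exact absurd h2 (not_le.2 h3)

/-- the compact operators are contained in the algebra iff the space is not mixed -/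
theorem compacts_iff (hc : ∀ B, MeasurableSet B → μ B ≠ ⊤ → CG μ B) :
    (∀ K : Lp ℂ 2 μ →L[ℂ] Lp ℂ 2 μ, IsCompactOperator K → K ∈ Cu μ) ↔
      ¬ ((∃ A, Atom μ A) ∧ ∃ B, Atomless μ B) := by
  constructor
  · rintro h ⟨⟨A, hA⟩, B, hB⟩
    obtain ⟨φ, hφ⟩ := nice_of_atomless hB (hc B hB.1 hB.2.2.1)
    exact rank_mixed hA hφ hB.1 hB.2.1 hB.2.2.1 (h _ (compact_rankOne _ _))
  · intro h K hK
    by_cases h1 : ∃ A, Atom μ A
    · refine compact_of_atomic (fun B hB => h ⟨h1, B, hB⟩) K hK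
    · push Not at h1
      exact compact_of_no_atoms hc h1 K hK

theorem cg_standard {Y : Type*} [MeasurableSpace Y] [StandardBorelSpace Y] (ν : Measure Y)
    (B : Set Y) : CG ν B :=
  ⟨embeddingReal Y, (measurableEmbedding_embeddingReal Y).measurable,
    fun S hS => gen_embedding ν (measurableEmbedding_embeddingReal Y) B S hS⟩

end Pool.Agent.Q192.SE
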