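import Pool.Agent.Q192.SE.Blocks

/-!
# Support expansion of vectors and of projections
-/

open MeasureTheory Set Filter Topology
open scoped InnerProductSpace NNReal ENNReal Function

namespace Pool.Agent.Q192.SE

variable {X : Type*} [MeasurableSpace X] {μ : Measure X}

/-- generic linear combinations have the largest possible support -/
theorem exists_generic (f g : Lp ℂ 2 μ) (hg : μ (Function.support g) ≠ ⊤) :
    ∃ t : ℂ, ∀ᵐ x ∂μ, f x ≠ 0 ∨ g x ≠ 0 → (f + t • g : Lp ℂ 2 μ) x ≠ 0 := by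
  have hfm := (Lp.stronglyMeasurable f).measurable
  have hgm := (Lp.stronglyMeasurable g).measurable
  set N : ℂ → Set X := fun t => {x | g x ≠ 0 ∧ f x + t * g x = 0} with hN
  have hNm : ∀ t, MeasurableSet (N t) := fun t =>
    (hgm (measurableSet_singleton 0).compl).inter
      ((hfm.add (hgm.const_mul t)) (measurableSet_singleton 0))
  have hNd : Pairwise (Disjoint on N) := by
    intro s t hst
    rw [Function.onFun, Set.disjoint_left]
    rintro x ⟨h1, h2⟩ ⟨_, h3⟩
    apply hst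
    have : (s - t) * g x = 0 := by linear_combination h2 - h3
    rcases mul_eq_zero.1 this with h | h
    · exact sub_eq_zero.1 h
    · exact absurd h h1
  have hc := Measure.countable_meas_pos_of_disjoint_of_meas_iUnion_ne_top μ hNm hNd
    (ne_top_of_le_ne_top hg (measure_mono (iUnion_subset fun t x hx => hx.1)))
  obtain ⟨t, ht⟩ : ∃ t : ℂ, t ∉ {t : ℂ | 0 < μ (N t)} := by
    by_contra hcon
    push Not at hcon
    exact not_countable_complex (hc.mono fun t _ => hcon t)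
  refine ⟨t, ?_⟩
  have h0 : μ (N t) = 0 := by
    by_contra h
    exact ht (pos_iff_ne_zero.2 h)
  filter_upwards [Lp.coeFn_add f (t • g), Lp.coeFn_smul t g, (measure_eq_zero_iff_ae_notMem.1 h0)]
    with x h1 h2 h3 h4
  rw [h1, Pi.add_apply, h2, Pi.smul_apply, smul_eq_mul]
  intro h5
  by_cases hg0 : g x = 0
  · rw [hg0, mul_zero, add_zero] at h5
    exact h4.elim (fun h => h h5) (fun h => h hg0)
  · exact h3 ⟨hg0, h5⟩

theorem expand_le {l : ℝ≥0} {a : Lp ℂ 2 μ →L[ℂ] Lp ℂ 2 μ}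
    (ha : ∀ ξ : Lp ℂ 2 μ, μ (Function.support (a ξ)) ≤ l * μ (Function.support ξ)) {Q : Set X}
    (ξ : Lp ℂ 2 μ) (hξ : ∀ᵐ x ∂μ, x ∉ Q → ξ x = 0) :
    μ (Function.support (a ξ)) ≤ l * μ Q := by
  refine (ha ξ).trans (mul_le_mul' le_rfl ?_)
  refine measure_mono_ae ?_
  filter_upwards [hξ] with x hx h
  by_contra h1
  exact h (hx h1)

theorem exists_join {l : ℝ≥0} {a : Lp ℂ 2 μ →L[ℂ] Lp ℂ 2 μ}
    (ha : ∀ ξ : Lp ℂ 2 μ, μ (Function.support (a ξ)) ≤ l * μ (Function.support ξ)) {Q : Set X}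
    (hQ : μ Q ≠ ⊤) (ξ η : Lp ℂ 2 μ) (hξ : ∀ᵐ x ∂μ, x ∉ Q → ξ x = 0)
    (hη : ∀ᵐ x ∂μ, x ∉ Q → η x = 0) :
    ∃ ζ : Lp ℂ 2 μ, (∀ᵐ x ∂μ, x ∉ Q → ζ x = 0) ∧ ∀ᵐ x ∂μ, a ξ x ≠ 0 ∨ a η x ≠ 0 → a ζ x ≠ 0 := by
  obtain ⟨t, ht⟩ := exists_generic (a ξ) (a η)
    (ne_top_of_le_ne_top (ENNReal.mul_ne_top ENNReal.coe_ne_top hQ) (expand_le ha η hη))
  refine ⟨ξ + t • η, ?_, ?_⟩
  · filter_upwards [Lp.coeFn_add ξ (t • η), Lp.coeFn_smul t η, hξ, hη] with x h1 h2 h3 h4 h5
    rw [h1, Pi.add_apply, h2, Pi.smul_apply, h3 h5, h4 h5, smul_zero, add_zero]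
  · rw [map_add, map_smul]
    exact ht

/-- the left support of `a` restricted to `Q` -/
theorem exists_cover {l : ℝ≥0} {a : Lp ℂ 2 μ →L[ℂ] Lp ℂ 2 μ}
    (ha : ∀ ξ : Lp ℂ 2 μ, μ (Function.support (a ξ)) ≤ l * μ (Function.support ξ)) (Q : Set X) :
    ∃ P, MeasurableSet P ∧ μ P ≤ l * μ Q ∧ ∀ ξ : Lp ℂ 2 μ, (∀ᵐ x ∂μ, x ∉ Q → ξ x = 0) →
      ∀ᵐ x ∂μ, x ∉ P → a ξ x = 0 := by
  have hsm : ∀ f : Lp ℂ 2 μ, MeasurableSet (Function.support f) := fun f =>
    measurableSet_support (Lp.stronglyMeasurable f).measurable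
  by_cases hQf : μ Q = ⊤
  · by_cases hl : l = 0
    · refine ⟨∅, MeasurableSet.empty, by simp, fun ξ _ => ?_⟩
      have h1 := ha ξ
      rw [hl, ENNReal.coe_zero, zero_mul] at h1
      filter_upwards [measure_eq_zero_iff_ae_notMem.1 (nonpos_iff_eq_zero.1 h1)] with x hx _
      by_contra h2
      exact hx h2
    · refine ⟨univ, MeasurableSet.univ, ?_, fun ξ _ =>
        Eventually.of_forall fun x hx => absurd (mem_univ x) hx⟩
      rw [hQf, ENNReal.mul_top (by simpa using hl)]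
      exact le_top
  · set S : Set ℝ≥0∞ := {m | ∃ ξ : Lp ℂ 2 μ, (∀ᵐ x ∂μ, x ∉ Q → ξ x = 0) ∧
      μ (Function.support (a ξ)) = m} with hS
    have hSne : S.Nonempty := ⟨_, 0, by
      filter_upwards [Lp.coeFn_zero ℂ 2 μ] with x hx _
      exact hx, rfl⟩
    have hSb : ∀ m ∈ S, m ≤ l * μ Q := by
      rintro m ⟨ξ, h1, rfl⟩
      exact expand_le ha ξ h1
    have hs : sSup S ≤ l * μ Q := sSup_le hSb
    have hsf : sSup S ≠ ⊤ := ne_top_of_le_ne_top (ENNReal.mul_ne_top ENNReal.coe_ne_top hQf) hs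
    obtain ⟨u, -, hu, huS⟩ := exists_seq_tendsto_sSup hSne (OrderTop.bddAbove S)
    choose ξ hξ1 hξ2 using huS
    refine ⟨⋃ n, Function.support (a (ξ n)), MeasurableSet.iUnion fun n => hsm _, ?_, ?_⟩
    · rw [measure_iUnion_eq_iSup_accumulate]
      refine iSup_le fun n => ?_
      have h3 : ∃ ζ : Lp ℂ 2 μ, (∀ᵐ x ∂μ, x ∉ Q → ζ x = 0) ∧
          ∀ᵐ x ∂μ, x ∈ accumulate (fun n => Function.support (a (ξ n))) n → a ζ x ≠ 0 := by
        induction n with
        | zero =>
          refine ⟨ξ 0, hξ1 0, Eventually.of_forall fun x hx => ?_⟩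
          obtain ⟨i, hi, hx⟩ := mem_accumulate.1 hx
          rw [Nat.le_zero.1 hi] at hx
          exact hx
        | succ n ih =>
          obtain ⟨ζ, h1, h2⟩ := ih
          obtain ⟨ζ', h3, h4⟩ := exists_join ha hQf ζ (ξ (n + 1)) h1 (hξ1 _)
          refine ⟨ζ', h3, ?_⟩
          filter_upwards [h2, h4] with x h5 h6 h7
          apply h6
          obtain ⟨i, hi, hx⟩ := mem_accumulate.1 h7
          rcases Nat.le_succ_iff.1 hi with h8 | h8
          · left
            exact h5 (mem_accumulate.2 ⟨i, h8, hx⟩)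
          · right
            rw [h8] at hx
            exact hx
      obtain ⟨ζ, h1, h2⟩ := h3
      refine le_trans (measure_mono_ae ?_) (expand_le ha ζ h1)
      filter_upwards [h2] with x hx h
      exact hx h
    · intro η hη
      set D : Set X := Function.support (a η) \ ⋃ n, Function.support (a (ξ n)) with hD
      have hle : ∀ n, μ D + u n ≤ sSup S := by
        intro n
        obtain ⟨ζ, h1, h2⟩ := exists_join ha hQf η (ξ n) hη (hξ1 n)
        calc μ D + u n ≤ μ (Function.support (a η) \ Function.support (a (ξ n))) +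
              μ (Function.support (a (ξ n))) := by
              rw [hξ2]
              gcongr
              intro x hx
              exact ⟨hx.1, fun h => hx.2 (mem_iUnion.2 ⟨n, h⟩)⟩
          _ = μ ((Function.support (a η) \ Function.support (a (ξ n))) ∪
              Function.support (a (ξ n))) := by
              rw [measure_union disjoint_sdiff_left (hsm _)]
          _ ≤ μ (Function.support (a ζ)) := by
              refine measure_mono_ae ?_
              filter_upwards [h2] with x hx h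
              rcases h with h | h
              · exact hx (Or.inl h.1)
              · exact hx (Or.inr h)
          _ ≤ sSup S := le_sSup ⟨ζ, h1, rfl⟩
      have hlim : Tendsto (fun n => μ D + u n) atTop (𝓝 (μ D + sSup S)) := hu.const_add _
      have h3 := le_of_tendsto' hlim hle
      have h4 : μ D + sSup S ≤ 0 + sSup S := by rwa [zero_add]
      have h5 : μ D = 0 := nonpos_iff_eq_zero.1 (ENNReal.le_of_add_le_add_right hsf h4)
      filter_upwards [measure_eq_zero_iff_ae_notMem.1 h5] with x hx hx2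
      by_contra hne
      exact hx ⟨hne, hx2⟩

/-- conversely, covers of sets bound the supports of vectors -/
theorem expand_of_cover {l : ℝ≥0} {a : Lp ℂ 2 μ →L[ℂ] Lp ℂ 2 μ}
    (h : ∀ Q : Set X, MeasurableSet Q → ∃ P, MeasurableSet P ∧ μ P ≤ l * μ Q ∧
      ∀ ξ : Lp ℂ 2 μ, (∀ᵐ x ∂μ, x ∉ Q → ξ x = 0) → ∀ᵐ x ∂μ, x ∉ P → a ξ x = 0)
    (ξ : Lp ℂ 2 μ) : μ (Function.support (a ξ)) ≤ l * μ (Function.support ξ) := by
  obtain ⟨P, -, h1, h2⟩ := h (Function.support ξ)
    (measurableSet_support (Lp.stronglyMeasurable ξ).measurable)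
  refine le_trans (measure_mono_ae ?_) h1
  filter_upwards [h2 ξ (Eventually.of_forall fun x hx => by simpa using hx)] with x hx h3
  by_contra h4
  exact h3 (hx h4)

end Pool.Agent.Q192.SE
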