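import Pool.Agent.Q192.SE.Mixed

/-!
# Separability of `L²` and countable generation; atoms of measures without point masses
-/

open MeasureTheory Set Filter Topology ProbabilityTheory
open scoped InnerProductSpace NNReal ENNReal

namespace Pool.Agent.Q192.SE

variable {X : Type*} [MeasurableSpace X] {μ : Measure X} {A B : Set X} {φ : X → ℝ}

theorem cg_of_separable (hB : MeasurableSet B) (hBf : μ B ≠ ⊤)
    (hs : TopologicalSpace.SeparableSpace (Lp ℂ 2 (μ.restrict B))) : CG μ B := by
  classical
  have hfin : IsFiniteMeasure (μ.restrict B) :=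
    ⟨by rw [Measure.restrict_apply_univ]; exact hBf.lt_top⟩
  set S0 : Set (Lp ℂ 2 (μ.restrict B)) := {f | ∃ S, ∃ hS : MeasurableSet S,
    f = indicatorConstLp 2 hS (measure_ne_top (μ.restrict B) S) (1 : ℂ)} with hS0
  obtain ⟨t, hts, htc, htd⟩ :=
    (TopologicalSpace.IsSeparable.of_separableSpace S0).exists_countable_dense_subset
  have hne : t.Nonempty := by
    have : indicatorConstLp 2 MeasurableSet.univ (measure_ne_top (μ.restrict B) univ) (1 : ℂ) ∈
        closure t := htd ⟨_, _, rfl⟩
    exact closure_nonempty_iff.1 ⟨_, this⟩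
  obtain ⟨F, hF⟩ := htc.exists_eq_range hne
  have hFS : ∀ n, ∃ S, ∃ hS : MeasurableSet S,
      F n = indicatorConstLp 2 hS (measure_ne_top (μ.restrict B) S) (1 : ℂ) :=
    fun n => hts (hF ▸ mem_range_self n)
  choose S hS hFS using hFS
  set c : X → (ℕ → Bool) := fun x n => decide (x ∈ S n) with hc
  have hcm : Measurable c := by
    refine measurable_pi_iff.2 fun n => measurable_to_bool ?_
    have : (fun x => c x n) ⁻¹' {true} = S n := by
      ext x; simp [hc]
    rw [this]; exact hS n
  have hem := measurableEmbedding_embeddingReal (ℕ → Bool)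
  set T : ℕ → Set ℝ := fun n => embeddingReal (ℕ → Bool) ''
    ((fun b : ℕ → Bool => b n) ⁻¹' {true}) with hT
  have hTm : ∀ n, MeasurableSet (T n) := fun n =>
    hem.measurableSet_image.2
      ((measurable_pi_apply (X := fun _ : ℕ => Bool) n) (measurableSet_singleton true))
  have hTS : ∀ n x, (embeddingReal (ℕ → Bool) (c x) ∈ T n) ↔ x ∈ S n := by
    intro n x
    rw [hT]
    constructor
    · rintro ⟨b, hb, hbx⟩
      have : b = c x := hem.injective hbx
      rw [this] at hb
      exact of_decide_eq_true hb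
    · intro hx
      exact ⟨c x, decide_eq_true hx, rfl⟩
  refine ⟨embeddingReal (ℕ → Bool) ∘ c, hem.measurable.comp hcm, fun S' hS' => ?_⟩
  have hcl : indicatorConstLp 2 hS' (measure_ne_top (μ.restrict B) S') (1 : ℂ) ∈ closure t :=
    htd ⟨_, _, rfl⟩
  obtain ⟨x, hxt, hlim⟩ := mem_closure_iff_seq_limit.1 hcl
  have hxF : ∀ k, ∃ n, F n = x k := fun k => by
    have := hxt k
    rw [hF] at this
    exact this
  choose n hn using hxF
  obtain ⟨ns, -, hae⟩ := (tendstoInMeasure_of_tendsto_Lp hlim).exists_seq_tendsto_ae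
  have hind : ∀ᵐ y ∂(μ.restrict B), ∀ m, F m y = (S m).indicator (fun _ => (1 : ℂ)) y := by
    rw [ae_all_iff]
    intro m
    rw [hFS m]
    exact indicatorConstLp_coeFn
  have hind' : ∀ᵐ y ∂(μ.restrict B), indicatorConstLp 2 hS'
      (measure_ne_top (μ.restrict B) S') (1 : ℂ) y = S'.indicator (fun _ => (1 : ℂ)) y :=
    indicatorConstLp_coeFn
  refine ⟨⋃ N : ℕ, ⋂ i : ℕ, T (n (ns (N + i))), MeasurableSet.iUnion fun N =>
    MeasurableSet.iInter fun i => hTm _, ?_⟩
  have hall : ∀ᵐ y ∂(μ.restrict B),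
      ((embeddingReal (ℕ → Bool) ∘ c) y ∈ ⋃ N : ℕ, ⋂ i : ℕ, T (n (ns (N + i)))) ↔ y ∈ S' := by
    filter_upwards [hae, hind, hind'] with y h1 h2 h3
    rw [h3] at h1
    have h4 : ∀ i, x (ns i) y = (S (n (ns i))).indicator (fun _ => (1 : ℂ)) y := fun i => by
      rw [← hn (ns i)]; exact h2 _
    simp only [h4] at h1
    constructor
    · intro h
      obtain ⟨N, hN⟩ := mem_iUnion.1 h
      by_contra hy
      rw [indicator_of_notMem hy] at h1
      have h5 : Tendsto (fun i => (S (n (ns i))).indicator (fun _ => (1 : ℂ)) y) atTop (𝓝 1) := by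
        refine tendsto_const_nhds.congr' ?_
        filter_upwards [eventually_ge_atTop N] with i hi
        have h6 := mem_iInter.1 hN (i - N)
        rw [Nat.add_sub_cancel' hi] at h6
        rw [indicator_of_mem ((hTS _ _).1 h6)]
      exact zero_ne_one (tendsto_nhds_unique h1 h5)
    · intro hy
      rw [indicator_of_mem hy] at h1
      have h5 := h1.eventually (isOpen_ne.mem_nhds (one_ne_zero : (1 : ℂ) ≠ 0))
      obtain ⟨N, hN⟩ := eventually_atTop.1 h5
      refine mem_iUnion.2 ⟨N, mem_iInter.2 fun i => (hTS _ _).2 ?_⟩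
      by_contra h6
      exact hN (N + i) (Nat.le_add_right _ _) (indicator_of_notMem h6 _)
  filter_upwards [(ae_restrict_iff' hB).1 hall] with y hy
  show ((embeddingReal (ℕ → Bool) ∘ c) y ∈ (⋃ N : ℕ, ⋂ i : ℕ, T (n (ns (N + i)))) ∧ y ∈ B) =
    (y ∈ S' ∧ y ∈ B)
  by_cases hyB : y ∈ B
  · have := hy hyB
    simp only [hyB, and_true]
    exact propext this
  · simp [hyB]

/-- a set on which the fibres of a measurable real function are null is not an atom -/
theorem not_atom_of_fibres {e : X → ℝ} (he : Measurable e) (hfib : ∀ t, μ (e ⁻¹' {t} ∩ A) = 0) :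
    ¬ Atom μ A := by
  rintro ⟨hA, hA0, hAf, hat⟩
  set m : Measure ℝ := (μ A)⁻¹ • (μ.restrict A).map e with hmdef
  have hprob : IsProbabilityMeasure m := ⟨by
    rw [hmdef, Measure.smul_apply, Measure.map_apply he MeasurableSet.univ, preimage_univ,
      Measure.restrict_apply_univ, smul_eq_mul, ENNReal.inv_mul_cancel hA0 hAf]⟩
  have hm : ∀ t, m {t} = 0 := by
    intro t
    rw [hmdef, Measure.smul_apply, Measure.map_apply he (measurableSet_singleton t),
      Measure.restrict_apply (he (measurableSet_singleton t)), hfib, smul_zero]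
  have hc := (continuous_cdf m hm).measurable
  have h1 := measure_le_cdf m hm (t := 1 / 2) (by norm_num) (by norm_num)
  set L : Set ℝ := cdf m ⁻¹' Iic (1 / 2) with hL
  have hLm : MeasurableSet L := hc measurableSet_Iic
  have h2 : m L = (μ A)⁻¹ * μ (e ⁻¹' L ∩ A) := by
    rw [hmdef, Measure.smul_apply, Measure.map_apply he hLm,
      Measure.restrict_apply (he hLm), smul_eq_mul]
  have h3 : m Lᶜ = (μ A)⁻¹ * μ (e ⁻¹' Lᶜ ∩ A) := by
    rw [hmdef, Measure.smul_apply, Measure.map_apply he hLm.compl,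
      Measure.restrict_apply (he hLm.compl), smul_eq_mul]
  rcases hat (e ⁻¹' L ∩ A) inter_subset_right ((he hLm).inter hA) with h4 | h4
  · rw [h4, mul_zero, h1] at h2
    simp at h2
  · have h5 : A \ (e ⁻¹' L ∩ A) = e ⁻¹' Lᶜ ∩ A := by
      ext x
      simp only [mem_diff, mem_inter_iff, mem_preimage, mem_compl_iff, not_and]
      tauto
    rw [h5] at h4
    rw [h4, mul_zero, prob_compl_eq_one_sub hLm, h1] at h3
    have h6 : ENNReal.ofReal (1 / 2) < 1 := by
      rw [← ENNReal.ofReal_one]
      exact (ENNReal.ofReal_lt_ofReal_iff one_pos).2 (by norm_num)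
    rw [tsub_eq_zero_iff_le] at h3
    exact absurd h6 (not_lt.2 h3)

theorem no_atoms_standard {Y : Type*} [MeasurableSpace Y] [StandardBorelSpace Y] (ν : Measure Y)
    (h : ∀ y, ν {y} = 0) (A : Set Y) : ¬ Atom ν A := by
  have he := measurableEmbedding_embeddingReal Y
  refine not_atom_of_fibres he.measurable fun t => ?_
  by_cases hx : ∃ x, embeddingReal Y x = t
  · obtain ⟨x, rfl⟩ := hx
    refine measure_mono_null ?_ (h x)
    intro y hy
    exact he.injective hy.1
  · have : embeddingReal Y ⁻¹' {t} ∩ A = ∅ := by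
      ext y
      simp only [mem_inter_iff, mem_preimage, mem_singleton_iff, mem_empty_iff_false, iff_false]
      exact fun hy => hx ⟨y, hy.1⟩
    rw [this, measure_empty]

end Pool.Agent.Q192.SE
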