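import Pool.Agent.Q192.SE.Blocks

/-!
# Minimal projections and the commutant of a support expansion algebra
-/

open MeasureTheory Set Filter Topology
open scoped InnerProductSpace NNReal ENNReal

namespace Pool.Agent.Q192.SE

/-- an algebra of operators whose minimal projections have rank one and which contains its
commutant -/
structure Target {K : Type*} [NormedAddCommGroup K] [InnerProductSpace ℂ K] [CompleteSpace K]
    (N : Submodule ℂ (K →L[ℂ] K)) : Prop where
  mul : ∀ a ∈ N, ∀ b ∈ N, a ∘L b ∈ N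
  adj : ∀ a ∈ N, a.adjoint ∈ N
  min : ∀ q ∈ N, q ∘L q = q → q.adjoint = q → q ≠ 0 →
    (∀ b ∈ N, ∃ c : ℂ, q ∘L b ∘L q = c • q) →
    ∃ η : K, ‖η‖ = 1 ∧ q = InnerProductSpace.rankOne ℂ η η
  comm : ∀ p : K →L[ℂ] K, (∀ b ∈ N, p ∘L b = b ∘L p) → p ∈ N

variable {X : Type*} [MeasurableSpace X] {μ : Measure X} {B : Set X}

/-- multiplication by the indicator function of a measurable set -/
noncomputable def mB (μ : Measure X) (hB : MeasurableSet B) : Lp ℂ 2 μ →L[ℂ] Lp ℂ 2 μ :=
  LinearMap.mkContinuous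
    { toFun := fun f => ((Lp.memLp f).indicator hB).toLp (B.indicator f)
      map_add' := fun f g => by
        refine Lp.ext ?_
        filter_upwards [((Lp.memLp (f + g)).indicator hB).coeFn_toLp,
          ((Lp.memLp f).indicator hB).coeFn_toLp, ((Lp.memLp g).indicator hB).coeFn_toLp,
          Lp.coeFn_add f g, Lp.coeFn_add (((Lp.memLp f).indicator hB).toLp (B.indicator f))
            (((Lp.memLp g).indicator hB).toLp (B.indicator g))] with x h1 h2 h3 h4 h5
        rw [h1, h5, Pi.add_apply, h2, h3]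
        by_cases hx : x ∈ B
        · simp only [indicator_of_mem hx, h4, Pi.add_apply]
        · simp only [indicator_of_notMem hx, add_zero]
      map_smul' := fun c f => by
        refine Lp.ext ?_
        filter_upwards [((Lp.memLp (c • f)).indicator hB).coeFn_toLp,
          ((Lp.memLp f).indicator hB).coeFn_toLp, Lp.coeFn_smul c f,
          Lp.coeFn_smul c (((Lp.memLp f).indicator hB).toLp (B.indicator f))] with x h1 h2 h3 h4
        rw [h1, RingHom.id_apply, h4, Pi.smul_apply, h2]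
        by_cases hx : x ∈ B
        · simp only [indicator_of_mem hx, h3, Pi.smul_apply]
        · simp only [indicator_of_notMem hx, smul_zero] } 1 (by
      intro f
      rw [one_mul]
      refine Lp.norm_le_norm_of_ae_le ?_
      filter_upwards [((Lp.memLp f).indicator hB).coeFn_toLp] with x hx
      show ‖(((Lp.memLp f).indicator hB).toLp (B.indicator f)) x‖ ≤ _
      rw [hx]
      exact norm_indicator_le_norm_self _ _)

theorem mB_coe (hB : MeasurableSet B) (f : Lp ℂ 2 μ) : mB μ hB f =ᵐ[μ] B.indicator f :=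
  ((Lp.memLp f).indicator hB).coeFn_toLp

theorem mB_inner (hB : MeasurableSet B) (f g : Lp ℂ 2 μ) :
    ⟪f, mB μ hB g⟫_ℂ = ∫ x in B, ⟪f x, g x⟫_ℂ ∂μ := by
  rw [L2.inner_def, ← integral_indicator hB]
  refine integral_congr_ae ?_
  filter_upwards [mB_coe hB g] with x hx
  rw [hx]
  by_cases h : x ∈ B
  · rw [indicator_of_mem h, indicator_of_mem h]
  · rw [indicator_of_notMem h, indicator_of_notMem h, inner_zero_right]

theorem mB_adj (hB : MeasurableSet B) : (mB μ hB).adjoint = mB μ hB := by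
  symm
  rw [ContinuousLinearMap.eq_adjoint_iff]
  intro f g
  rw [mB_inner, ← inner_conj_symm, mB_inner, ← integral_conj]
  refine integral_congr_ae (Eventually.of_forall fun x => ?_)
  exact inner_conj_symm _ _

theorem mB_mem (hB : MeasurableSet B) : mB μ hB ∈ Cu μ := by
  have h : ∀ ξ : Lp ℂ 2 μ, μ (Function.support (mB μ hB ξ)) ≤ (1 : ℝ≥0) *
      μ (Function.support ξ) := by
    intro ξ
    rw [ENNReal.coe_one, one_mul]
    refine measure_mono_ae ?_
    filter_upwards [mB_coe hB ξ] with x hx h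
    have h1 : mB μ hB ξ x ≠ 0 := h
    rw [hx] at h1
    show ξ x ≠ 0
    intro h2
    apply h1
    by_cases h3 : x ∈ B
    · rw [indicator_of_mem h3, h2]
    · rw [indicator_of_notMem h3]
  exact (FE μ).le_topologicalClosure ⟨1, h, fun ξ => by rw [mB_adj]; exact h ξ⟩

theorem mB_fix (hB : MeasurableSet B) (f : Lp ℂ 2 μ) (h : ∀ᵐ x ∂μ, x ∉ B → f x = 0) :
    mB μ hB f = f := by
  refine Lp.ext ?_
  filter_upwards [mB_coe hB f, h] with x h1 h2
  rw [h1]
  by_cases h3 : x ∈ B
  · rw [indicator_of_mem h3]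
  · rw [indicator_of_notMem h3, h2 h3]

theorem commutant_mem (p : Lp ℂ 2 μ →L[ℂ] Lp ℂ 2 μ)
    (hp : ∀ (B : Set X) (hB : MeasurableSet B), p ∘L mB μ hB = mB μ hB ∘L p) : p ∈ Cu μ := by
  have key : ∀ p : Lp ℂ 2 μ →L[ℂ] Lp ℂ 2 μ,
      (∀ (B : Set X) (hB : MeasurableSet B), p ∘L mB μ hB = mB μ hB ∘L p) →
      ∀ ξ : Lp ℂ 2 μ, μ (Function.support (p ξ)) ≤ (1 : ℝ≥0) * μ (Function.support ξ) := by
    intro p hp ξ
    rw [ENNReal.coe_one, one_mul]
    have hS : MeasurableSet (Function.support ξ) :=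
      measurableSet_support (Lp.stronglyMeasurable ξ).measurable
    have h1 : p ξ = mB μ hS (p ξ) := by
      have h2 := mB_fix hS ξ (Eventually.of_forall fun x hx => by simpa using hx)
      calc p ξ = (p ∘L mB μ hS) ξ := by rw [ContinuousLinearMap.comp_apply, h2]
        _ = mB μ hS (p ξ) := by rw [hp]; rfl
    refine measure_mono_ae ?_
    filter_upwards [mB_coe hS (p ξ)] with x hx h
    have h3 : p ξ x ≠ 0 := h
    by_contra h4
    apply h3
    rw [h1, hx]
    exact indicator_of_notMem h4 _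
  refine (FE μ).le_topologicalClosure ⟨1, key p hp, key p.adjoint ?_⟩
  intro B hB
  have h1 := congrArg (fun a => ContinuousLinearMap.adjoint a) (hp B hB)
  simp only [ContinuousLinearMap.adjoint_comp, mB_adj] at h1
  exact h1.symm

theorem min_rank (q : Lp ℂ 2 μ →L[ℂ] Lp ℂ 2 μ) (hqq : q ∘L q = q) (hqa : q.adjoint = q)
    (hq0 : q ≠ 0)
    (hq : ∀ (B : Set X) (hB : MeasurableSet B), ∃ c : ℂ, q ∘L mB μ hB ∘L q = c • q) :
    ∃ η : Lp ℂ 2 μ, ‖η‖ = 1 ∧ q = InnerProductSpace.rankOne ℂ η η := by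
  obtain ⟨ζ, hζ⟩ : ∃ ζ, q ζ ≠ 0 := by
    by_contra h
    push Not at h
    exact hq0 (ContinuousLinearMap.ext h)
  have hqv : ∀ v, q (q v) = q v := fun v => by
    rw [← ContinuousLinearMap.comp_apply, hqq]
  have hsym : ∀ u v, ⟪q u, v⟫_ℂ = ⟪u, q v⟫_ℂ := fun u v => by
    conv_lhs => rw [← hqa]
    exact ContinuousLinearMap.adjoint_inner_left _ _ _
  set η : Lp ℂ 2 μ := ((‖q ζ‖⁻¹ : ℝ) : ℂ) • q ζ with hη
  have hη1 : ‖η‖ = 1 := by
    rw [hη, norm_smul, Complex.norm_real, norm_inv, norm_norm,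
      inv_mul_cancel₀ (norm_ne_zero_iff.2 hζ)]
  have hqη : q η = η := by rw [hη, map_smul, hqv]
  refine ⟨η, hη1, ContinuousLinearMap.ext fun v => ?_⟩
  rw [InnerProductSpace.rankOne_apply]
  set ξ : Lp ℂ 2 μ := q v - ⟪η, v⟫_ℂ • η with hξ
  have hηη : ⟪η, η⟫_ℂ = 1 := by
    rw [inner_self_eq_norm_sq_to_K, hη1]
    simp
  have hqξ : q ξ = ξ := by rw [hξ, map_sub, map_smul, hqv, hqη]
  have horth : ⟪η, ξ⟫_ℂ = 0 := by
    rw [hξ, inner_sub_right, inner_smul_right, hηη, mul_one, ← hsym, hqη, sub_self]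
  have hform : ∀ (B : Set X) (hB : MeasurableSet B), ∃ c : ℂ, ∀ u w : Lp ℂ 2 μ, q u = u →
      q w = w → ⟪u, mB μ hB w⟫_ℂ = c * ⟪u, w⟫_ℂ := by
    intro B hB
    obtain ⟨c, hc⟩ := hq B hB
    refine ⟨c, fun u w hu hw => ?_⟩
    have h1 : q (mB μ hB (q w)) = c • q w := by
      have := congrArg (fun a => a w) hc
      exact this
    calc ⟪u, mB μ hB w⟫_ℂ = ⟪q u, mB μ hB (q w)⟫_ℂ := by rw [hu, hw]
      _ = ⟪u, q (mB μ hB (q w))⟫_ℂ := hsym _ _
      _ = c * ⟪u, w⟫_ℂ := by rw [h1, hw, inner_smul_right]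
  have h0 : (fun x => ⟪η x, ξ x⟫_ℂ) =ᵐ[μ] 0 := by
    refine Integrable.ae_eq_zero_of_forall_setIntegral_eq_zero (L2.integrable_inner η ξ) ?_
    intro B hB _
    obtain ⟨c, hc⟩ := hform B hB
    rw [← mB_inner hB, hc η ξ hqη hqξ, horth, mul_zero]
  have hS : MeasurableSet (Function.support η) :=
    measurableSet_support (Lp.stronglyMeasurable η).measurable
  obtain ⟨c, hc⟩ := hform _ hS
  have hc1 : c = 1 := by
    have h1 := hc η η hqη hqη
    rw [mB_fix hS η (Eventually.of_forall fun x hx => by simpa using hx), hηη, mul_one] at h1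
    exact h1.symm
  have hm0 : mB μ hS ξ = 0 := by
    refine Lp.ext ?_
    filter_upwards [mB_coe hS ξ, h0, Lp.coeFn_zero ℂ 2 μ] with x h1 h2 h3
    rw [h1, h3]
    by_cases h4 : x ∈ Function.support η
    · rw [indicator_of_mem h4]
      have h5 : ⟪η x, ξ x⟫_ℂ = 0 := h2
      rw [RCLike.inner_apply] at h5
      rcases mul_eq_zero.1 h5 with h6 | h6
      · exact h6
      · exfalso
        apply h4
        simpa using h6
    · rw [indicator_of_notMem h4]
      rfl
  have h1 := hc ξ ξ hqξ hqξ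
  rw [hm0, inner_zero_right, hc1, one_mul] at h1
  have h2 : ξ = 0 := inner_self_eq_zero.1 h1.symm
  exact sub_eq_zero.1 h2

theorem target (μ : Measure X) : Target (Cu μ) :=
  ⟨Cu_mul, Cu_adj, fun q _ hqq hqa hq0 hq => min_rank q hqq hqa hq0 fun _ hB => hq _ (mB_mem hB),
    fun p hp => commutant_mem p fun _ hB => hp _ (mB_mem hB)⟩

end Pool.Agent.Q192.SE
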